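import Mathlib

set_option autoImplicit false

/-!
Displacement: a group of order automorphisms of a complete linear order moves finitely many
intervals without common fixed points off themselves by one single element.
-/

namespace Pool.Agent.Lib.MP_bb0160_al

open Set Filter Topology

variable {Ω : Type*} [CompleteLinearOrder Ω]

/-- `z` moves the interval `[u, v]` off itself. -/
def Disp (z : Ω ≃o Ω) (u v : Ω) : Prop := v < z u ∨ z v < u

/-- The interval `[u, v]` contains no common fixed point of `H`. -/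
def Good (H : Subgroup (Ω ≃o Ω)) (u v : Ω) : Prop :=
  u ≤ v ∧ ∀ p, u ≤ p → p ≤ v → ∃ h ∈ H, h p ≠ p

theorem oi_mul_apply (a b : Ω ≃o Ω) (x : Ω) : (a * b) x = a (b x) := rfl

theorem oi_inv_apply_self (a : Ω ≃o Ω) (x : Ω) : a⁻¹ (a x) = x := a.symm_apply_apply x

theorem oi_apply_inv_self (a : Ω ≃o Ω) (x : Ω) : a (a⁻¹ x) = x := a.apply_symm_apply x

theorem disp_inv {z : Ω ≃o Ω} {u v : Ω} (h : Disp z u v) : Disp z⁻¹ u v := by
  rcases h with h | h
  · right
    have := (z⁻¹).lt_iff_lt.mpr h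
    rwa [oi_inv_apply_self] at this
  · left
    have := (z⁻¹).lt_iff_lt.mpr h
    rwa [oi_inv_apply_self] at this

theorem exists_up {H : Subgroup (Ω ≃o Ω)} {u v : Ω} (hg : Good H u v) : ∃ z ∈ H, v < z u := by
  set S : Set Ω := {x | ∃ h ∈ H, x = h u} with hS
  have hfix : ∀ g ∈ H, g (sSup S) = sSup S := by
    have hle : ∀ g ∈ H, g (sSup S) ≤ sSup S := by
      intro g hg'
      rw [OrderIso.map_sSup]
      apply iSup₂_le
      rintro x ⟨h, hh, rfl⟩
      apply le_sSup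
      exact ⟨g * h, H.mul_mem hg' hh, rfl⟩
    intro g hg'
    apply le_antisymm (hle g hg')
    have h1 := hle g⁻¹ (H.inv_mem hg')
    have h2 := g.le_iff_le.mpr h1
    rwa [oi_apply_inv_self] at h2
  have hu : u ≤ sSup S := le_sSup ⟨1, H.one_mem, rfl⟩
  have hv : v < sSup S := by
    by_contra hcon
    push Not at hcon
    obtain ⟨h, hh, hne⟩ := hg.2 _ hu hcon
    exact hne (hfix h hh)
  obtain ⟨x, ⟨h, hh, rfl⟩, hx⟩ := lt_sSup_iff.mp hv
  exact ⟨h, hh, hx⟩

theorem good_hull {H : Subgroup (Ω ≃o Ω)} {u v : Ω} (hg : Good H u v) {z : Ω ≃o Ω} (hz : z ∈ H) :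
    Good H (min u (z u)) (max v (z v)) := by
  refine ⟨le_trans (min_le_left _ _) (le_trans hg.1 (le_max_left _ _)), ?_⟩
  intro p hp1 hp2
  by_contra hcon
  push Not at hcon
  have hzp : z p = p := hcon z hz
  have h1 : u ≤ p := by
    rcases min_le_iff.mp hp1 with h | h
    · exact h
    · rw [← hzp] at h
      exact z.le_iff_le.mp h
  have h2 : p ≤ v := by
    rcases le_max_iff.mp hp2 with h | h
    · exact h
    · rw [← hzp] at h
      exact z.le_iff_le.mp h
  obtain ⟨h, hh, hne⟩ := hg.2 p h1 h2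
  exact hne (hcon h hh)

theorem disp_hull {w z : Ω ≃o Ω} {u v : Ω}
    (h : Disp w (min u (z⁻¹ u)) (max v (z⁻¹ v))) : Disp (z * w) u v := by
  rcases h with h | h
  · left
    have h1 : z⁻¹ v < w u :=
      lt_of_le_of_lt (le_max_right _ _) (lt_of_lt_of_le h (w.le_iff_le.mpr (min_le_left _ _)))
    have h2 := z.lt_iff_lt.mpr h1
    rw [oi_apply_inv_self] at h2
    exact h2
  · right
    have h1 : w v < z⁻¹ u :=
      lt_of_le_of_lt (w.le_iff_le.mpr (le_max_left _ _)) (lt_of_lt_of_le h (min_le_right _ _))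
    have h2 := z.lt_iff_lt.mpr h1
    rw [oi_apply_inv_self] at h2
    exact h2

theorem simultaneous {H : Subgroup (Ω ≃o Ω)} : ∀ (n : ℕ) (l : List (Ω × Ω)), l.length = n →
    (∀ x ∈ l, Good H x.1 x.2) → ∃ z ∈ H, ∀ x ∈ l, Disp z x.1 x.2 := by
  intro n
  induction n with
  | zero =>
    intro l hl _
    have : l = [] := List.length_eq_zero_iff.mp hl
    subst this
    exact ⟨1, H.one_mem, by simp⟩
  | succ n ih =>
    intro l hl hgood
    match l, hl, hgood with
    | [], hl, _ => simp at hl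
    | y :: l, hl, hgood =>
      obtain ⟨z, hz, hzy⟩ := exists_up (hgood y (by simp))
      obtain ⟨w, hw, hwd⟩ := ih
        (l.map (fun x => (min x.1 (z⁻¹ x.1), max x.2 (z⁻¹ x.2)))) (by simpa using hl) (by
          intro x hx
          obtain ⟨x', hx', rfl⟩ := List.mem_map.mp hx
          exact good_hull (hgood x' (by simp [hx'])) (H.inv_mem hz))
      have hrest : ∀ x ∈ l, Disp w (min x.1 (z⁻¹ x.1)) (max x.2 (z⁻¹ x.2)) := by
        intro x hx
        exact hwd _ (List.mem_map.mpr ⟨x, hx, rfl⟩)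
      rcases le_total y.1 (w y.1) with hle | hle
      · refine ⟨z * w, H.mul_mem hz hw, ?_⟩
        intro x hx
        rcases List.mem_cons.mp hx with rfl | hx
        · left
          exact lt_of_lt_of_le hzy (z.le_iff_le.mpr hle)
        · exact disp_hull (hrest x hx)
      · refine ⟨z * w⁻¹, H.mul_mem hz (H.inv_mem hw), ?_⟩
        intro x hx
        rcases List.mem_cons.mp hx with rfl | hx
        · left
          have h1 := (w⁻¹).le_iff_le.mpr hle
          rw [oi_inv_apply_self] at h1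
          exact lt_of_lt_of_le hzy (z.le_iff_le.mpr h1)
        · exact disp_hull (disp_inv (hrest x hx))

variable [TopologicalSpace Ω] [OrderTopology Ω]

theorem cover {H : Subgroup (Ω ≃o Ω)} {Q : Set Ω} (hQ : IsCompact Q)
    (hmv : ∀ q ∈ Q, ∃ h ∈ H, h q ≠ q) :
    ∃ l : List (Ω × Ω), (∀ x ∈ l, Good H x.1 x.2) ∧ ∀ q ∈ Q, ∃ x ∈ l, x.1 ≤ q ∧ q ≤ x.2 := by
  refine hQ.induction_on (p := fun T => ∃ l : List (Ω × Ω), (∀ x ∈ l, Good H x.1 x.2) ∧
    ∀ q ∈ T, ∃ x ∈ l, x.1 ≤ q ∧ q ≤ x.2) ?_ ?_ ?_ ?_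
  · exact ⟨[], by simp, by simp⟩
  · rintro s t hst ⟨l, hl, hc⟩
    exact ⟨l, hl, fun q hq => hc q (hst hq)⟩
  · rintro s t ⟨l, hl, hc⟩ ⟨l', hl', hc'⟩
    refine ⟨l ++ l', ?_, ?_⟩
    · intro x hx
      rcases List.mem_append.mp hx with h | h
      · exact hl x h
      · exact hl' x h
    · intro q hq
      rcases hq with h | h
      · obtain ⟨x, hx, hxq⟩ := hc q h
        exact ⟨x, List.mem_append.mpr (Or.inl hx), hxq⟩
      · obtain ⟨x, hx, hxq⟩ := hc' q h
        exact ⟨x, List.mem_append.mpr (Or.inr hx), hxq⟩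
  · intro q hq
    obtain ⟨h, hh, hne⟩ := hmv q hq
    have hopen : IsOpen {x : Ω | h x ≠ x} := isOpen_ne_fun h.continuous continuous_id
    obtain ⟨b, c, hbc, hnb, hsub⟩ := exists_Icc_mem_subset_of_mem_nhds (hopen.mem_nhds hne)
    refine ⟨Icc b c, mem_nhdsWithin_of_mem_nhds hnb, [(b, c)], ?_, ?_⟩
    · intro x hx
      rw [List.mem_singleton] at hx
      subst hx
      exact ⟨le_trans hbc.1 hbc.2, fun p hp1 hp2 => ⟨h, hh, hsub ⟨hp1, hp2⟩⟩⟩
    · intro q' hq'
      exact ⟨(b, c), by simp, hq'.1, hq'.2⟩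

/-- One element of `H` has no fixed point on a compact set without common fixed points of `H`. -/
theorem exists_no_fix {H : Subgroup (Ω ≃o Ω)} {Q : Set Ω} (hQ : IsCompact Q)
    (hmv : ∀ q ∈ Q, ∃ h ∈ H, h q ≠ q) : ∃ z ∈ H, ∀ q ∈ Q, z q ≠ q := by
  obtain ⟨l, hl, hc⟩ := cover hQ hmv
  obtain ⟨z, hz, hd⟩ := simultaneous l.length l rfl hl
  refine ⟨z, hz, ?_⟩
  intro q hq hfix
  obtain ⟨x, hx, hx1, hx2⟩ := hc q hq
  rcases hd x hx with h | h
  · have h1 : z x.1 ≤ z q := z.le_iff_le.mpr hx1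
    rw [hfix] at h1
    exact absurd (lt_of_lt_of_le h (le_trans h1 hx2)) (lt_irrefl _)
  · have h1 : z q ≤ z x.2 := z.le_iff_le.mpr hx2
    rw [hfix] at h1
    exact absurd (lt_of_le_of_lt (le_trans hx1 h1) h) (lt_irrefl _)

end Pool.Agent.Lib.MP_bb0160_al
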