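import Mathlib
import Pool.Agent.Lib.MP_bb0160_al.H54Disp

set_option autoImplicit false

/-!
Dynamics of words: two order automorphisms of a complete linear order which have many fixed
points, but no common ones in a window, do not satisfy a given law.
-/

namespace Pool.Agent.Lib.MP_bb0160_al

open Set Filter Topology

variable {Ω : Type*} [CompleteLinearOrder Ω] [TopologicalSpace Ω] [OrderTopology Ω]

theorem oi_pow_succ_apply (s : Ω ≃o Ω) (n : ℕ) (x : Ω) : (s ^ (n + 1)) x = (s ^ n) (s x) := by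
  rw [pow_succ]; rfl

theorem oi_pow_succ_apply' (s : Ω ≃o Ω) (n : ℕ) (x : Ω) : (s ^ (n + 1)) x = s ((s ^ n) x) := by
  rw [pow_succ']; rfl

theorem oi_pow_fix {s : Ω ≃o Ω} {x : Ω} (h : s x = x) (n : ℕ) : (s ^ n) x = x := by
  induction n with
  | zero => rfl
  | succ n ih => rw [oi_pow_succ_apply, h, ih]

theorem oi_inv_fix {s : Ω ≃o Ω} {x : Ω} (h : s x = x) : s⁻¹ x = x := by
  conv_lhs => rw [← h]
  exact oi_inv_apply_self s x

theorem tendsto_mul_atTop (j : ℕ) : Tendsto (fun k : ℕ => (j + 1) * k) atTop atTop := by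
  apply tendsto_atTop_mono (f := fun k => k) _ tendsto_id
  intro k
  nlinarith

/-- Limits of large powers near a nonfixed point, upward case. -/
theorem lim_up {s : Ω ≃o Ω} {p c : Ω} (hp : p < s p) (hc : s c = c) (hpc : p ≤ c) :
    ∃ p', s p' = p' ∧ p ≤ p' ∧ p' ≤ c ∧ ∀ r : ℕ → Ω, Tendsto r atTop (𝓝 p) → ∀ j : ℕ,
      Tendsto (fun k => (s ^ ((j + 1) * k)) (r k)) atTop (𝓝 p') := by
  set a : ℕ → Ω := fun n => (s ^ n) p with ha
  have hmono : Monotone a := by
    apply monotone_nat_of_le_succ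
    intro n
    simp only [ha]
    rw [oi_pow_succ_apply]
    exact (s ^ n).le_iff_le.mpr hp.le
  have hlim : Tendsto a atTop (𝓝 (⨆ n, a n)) := tendsto_atTop_iSup hmono
  have hlim1 : Tendsto (fun n => a (n + 1)) atTop (𝓝 (⨆ n, a n)) :=
    (tendsto_add_atTop_iff_nat 1).mpr hlim
  have hfix : s (⨆ n, a n) = ⨆ n, a n := by
    have h1 : Tendsto (fun n => s (a n)) atTop (𝓝 (s (⨆ n, a n))) :=
      (s.continuous.tendsto _).comp hlim
    have h2 : (fun n => s (a n)) = fun n => a (n + 1) := by
      funext n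
      simp only [ha]
      rw [oi_pow_succ_apply']
    rw [h2] at h1
    exact tendsto_nhds_unique h1 hlim1
  refine ⟨⨆ n, a n, hfix, le_iSup a 0, ?_, ?_⟩
  · apply iSup_le
    intro n
    have := (s ^ n).le_iff_le.mpr hpc
    rw [oi_pow_fix hc] at this
    exact this
  · intro r hr j
    have hlow : s⁻¹ p < p := by
      have := (s⁻¹).lt_iff_lt.mpr hp
      rwa [oi_inv_apply_self] at this
    -- lower bound sequence
    have hlo : Tendsto (fun n : ℕ => (s ^ n) (s⁻¹ p)) atTop (𝓝 (⨆ n, a n)) := by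
      rw [← tendsto_add_atTop_iff_nat 1]
      have : (fun n : ℕ => (s ^ (n + 1)) (s⁻¹ p)) = a := by
        funext n
        rw [oi_pow_succ_apply, oi_apply_inv_self]
      rw [this]
      exact hlim
    have hhi : Tendsto (fun n : ℕ => (s ^ n) (s p)) atTop (𝓝 (⨆ n, a n)) := by
      have : (fun n : ℕ => (s ^ n) (s p)) = fun n => a (n + 1) := by
        funext n
        simp only [ha]
        rw [oi_pow_succ_apply]
      rw [this]
      exact hlim1
    have hlo' := hlo.comp (tendsto_mul_atTop j)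
    have hhi' := hhi.comp (tendsto_mul_atTop j)
    refine tendsto_of_tendsto_of_tendsto_of_le_of_le' hlo' hhi' ?_ ?_
    · filter_upwards [hr.eventually (lt_mem_nhds hlow)] with k hk
      exact (s ^ ((j + 1) * k)).le_iff_le.mpr hk.le
    · filter_upwards [hr.eventually (gt_mem_nhds hp)] with k hk
      exact (s ^ ((j + 1) * k)).le_iff_le.mpr hk.le

/-- Limits of large powers near a nonfixed point, downward case. -/
theorem lim_down {s : Ω ≃o Ω} {p c : Ω} (hp : s p < p) (hc : s c = c) (hpc : c ≤ p) :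
    ∃ p', s p' = p' ∧ p' ≤ p ∧ c ≤ p' ∧ ∀ r : ℕ → Ω, Tendsto r atTop (𝓝 p) → ∀ j : ℕ,
      Tendsto (fun k => (s ^ ((j + 1) * k)) (r k)) atTop (𝓝 p') := by
  set a : ℕ → Ω := fun n => (s ^ n) p with ha
  have hmono : Antitone a := by
    apply antitone_nat_of_succ_le
    intro n
    simp only [ha]
    rw [oi_pow_succ_apply]
    exact (s ^ n).le_iff_le.mpr hp.le
  have hlim : Tendsto a atTop (𝓝 (⨅ n, a n)) := tendsto_atTop_iInf hmono
  have hlim1 : Tendsto (fun n => a (n + 1)) atTop (𝓝 (⨅ n, a n)) :=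
    (tendsto_add_atTop_iff_nat 1).mpr hlim
  have hfix : s (⨅ n, a n) = ⨅ n, a n := by
    have h1 : Tendsto (fun n => s (a n)) atTop (𝓝 (s (⨅ n, a n))) :=
      (s.continuous.tendsto _).comp hlim
    have h2 : (fun n => s (a n)) = fun n => a (n + 1) := by
      funext n
      simp only [ha]
      rw [oi_pow_succ_apply']
    rw [h2] at h1
    exact tendsto_nhds_unique h1 hlim1
  refine ⟨⨅ n, a n, hfix, iInf_le a 0, ?_, ?_⟩
  · apply le_iInf
    intro n
    have := (s ^ n).le_iff_le.mpr hpc
    rw [oi_pow_fix hc] at this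
    exact this
  · intro r hr j
    have hhigh : p < s⁻¹ p := by
      have := (s⁻¹).lt_iff_lt.mpr hp
      rwa [oi_inv_apply_self] at this
    have hhi : Tendsto (fun n : ℕ => (s ^ n) (s⁻¹ p)) atTop (𝓝 (⨅ n, a n)) := by
      rw [← tendsto_add_atTop_iff_nat 1]
      have : (fun n : ℕ => (s ^ (n + 1)) (s⁻¹ p)) = a := by
        funext n
        rw [oi_pow_succ_apply, oi_apply_inv_self]
      rw [this]
      exact hlim
    have hlo : Tendsto (fun n : ℕ => (s ^ n) (s p)) atTop (𝓝 (⨅ n, a n)) := by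
      have : (fun n : ℕ => (s ^ n) (s p)) = fun n => a (n + 1) := by
        funext n
        simp only [ha]
        rw [oi_pow_succ_apply]
      rw [this]
      exact hlim1
    have hlo' := hlo.comp (tendsto_mul_atTop j)
    have hhi' := hhi.comp (tendsto_mul_atTop j)
    refine tendsto_of_tendsto_of_tendsto_of_le_of_le' hlo' hhi' ?_ ?_
    · filter_upwards [hr.eventually (lt_mem_nhds hp)] with k hk
      exact (s ^ ((j + 1) * k)).le_iff_le.mpr hk.le
    · filter_upwards [hr.eventually (gt_mem_nhds hhigh)] with k hk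
      exact (s ^ ((j + 1) * k)).le_iff_le.mpr hk.le

theorem lim_both {s : Ω ≃o Ω} {p c d : Ω} (hp : s p ≠ p) (hc : s c = c) (hd : s d = d)
    (hcp : c ≤ p) (hpd : p ≤ d) :
    ∃ p', s p' = p' ∧ c ≤ p' ∧ p' ≤ d ∧ ∀ r : ℕ → Ω, Tendsto r atTop (𝓝 p) → ∀ j : ℕ,
      Tendsto (fun k => (s ^ ((j + 1) * k)) (r k)) atTop (𝓝 p') := by
  rcases lt_or_gt_of_ne hp with h | h
  · obtain ⟨p', h1, h2, h3, h4⟩ := lim_down h hc hcp
    exact ⟨p', h1, h3, h2.trans hpd, h4⟩
  · obtain ⟨p', h1, h2, h3, h4⟩ := lim_up h hd hpd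
    exact ⟨p', h1, hcp.trans h2, h3, h4⟩

/-- The automorphism or its inverse. -/
noncomputable def sg (t : Bool → (Ω ≃o Ω)) (x : Bool × Bool) : Ω ≃o Ω :=
  cond x.2 (t x.1) (t x.1)⁻¹

/-- Value of a word on `k`-th powers. -/
noncomputable def ev (t : Bool → (Ω ≃o Ω)) (L : List (Bool × Bool)) (k : ℕ) : Ω ≃o Ω :=
  (L.map (fun x => (sg t x) ^ k)).prod

theorem sg_fix_iff (t : Bool → (Ω ≃o Ω)) (x : Bool × Bool) (p : Ω) :
    sg t x p = p ↔ t x.1 p = p := by
  unfold sg
  rcases x with ⟨c, ε⟩
  cases ε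
  · simp only [cond_false]
    constructor
    · intro h
      have := oi_inv_fix h
      rwa [inv_inv] at this
    · exact oi_inv_fix
  · simp

theorem ev_cons (t : Bool → (Ω ≃o Ω)) (x : Bool × Bool) (L : List (Bool × Bool)) (k : ℕ) (p : Ω) :
    ev t (x :: L) k p = ((sg t x) ^ k) (ev t L k p) := by
  simp [ev, oi_mul_apply]

theorem dyn_claim (t : Bool → (Ω ≃o Ω)) (b : ℕ → Ω) (hb : Monotone b)
    (hfix : ∀ j c, ∃ p, b j ≤ p ∧ p ≤ b (j + 1) ∧ t c p = p) (n : ℕ)
    (hno : ∀ p, b 0 ≤ p → p ≤ b (2 * n + 1) → ¬ (t true p = p ∧ t false p = p))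
    (x0 : Ω) (h1 : b n ≤ x0) (h2 : x0 ≤ b (n + 1)) (c0 : Bool) (hc0 : t c0 x0 = x0) :
    ∀ L : List (Bool × Bool), FreeGroup.IsReduced L → L.length ≤ n →
      ∃ (p : Ω) (c : Bool), b (n - L.length) ≤ p ∧ p ≤ b (n + 1 + L.length) ∧
        (∀ x ∈ L.head?, x.1 = c) ∧ t c p = p ∧
        Tendsto (fun k => ev t L k x0) atTop (𝓝 p) ∧
        ∀ ε : Bool, FreeGroup.IsReduced ((c, ε) :: L) → ∀ j : ℕ,
          Tendsto (fun k => ((sg t (c, ε)) ^ (j * k)) (ev t L k x0)) atTop (𝓝 p) := by
  intro L
  induction L with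
  | nil =>
    intro _ _
    refine ⟨x0, c0, by simpa using h1, by simpa using h2, by simp, hc0, ?_, ?_⟩
    · simpa [ev] using tendsto_const_nhds
    · intro ε _ j
      have : (fun k => ((sg t (c0, ε)) ^ (j * k)) (ev t [] k x0)) = fun _ => x0 := by
        funext k
        have : ev t [] k x0 = x0 := by simp [ev]
        rw [this]
        exact oi_pow_fix ((sg_fix_iff t (c0, ε) x0).mpr hc0) _
      rw [this]
      exact tendsto_const_nhds
  | cons y L ih =>
    intro hred hlen
    have hredL : FreeGroup.IsReduced L := List.IsChain.tail hred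
    have hlen' : L.length + 1 ≤ n := by simpa using hlen
    obtain ⟨p, c, hp1, hp2, hhead, htp, htend, hall⟩ := ih hredL (by omega)
    by_cases hcy : y.1 = c
    · -- same letter
      refine ⟨p, c, ?_, ?_, ?_, htp, ?_, ?_⟩
      · refine le_trans (hb ?_) hp1
        simp only [List.length_cons]
        omega
      · refine le_trans hp2 (hb ?_)
        simp only [List.length_cons]
        omega
      · intro x hx
        simp only [List.head?_cons, Option.mem_def, Option.some.injEq] at hx
        rw [← hx]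
        exact hcy
      · have hy : y = (c, y.2) := by rw [← hcy]
        have h3 := hall y.2 (by rw [← hy]; exact hred) 1
        refine h3.congr ?_
        intro k
        rw [ev_cons, one_mul, ← hy]
      · intro ε hε j
        have hy : y = (c, y.2) := by rw [← hcy]
        have hε2 : ε = y.2 := by
          have := (FreeGroup.isReduced_cons_cons.mp hε).1
          exact this (by rw [hcy])
        have h3 := hall y.2 (by rw [← hy]; exact hred) (j + 1)
        refine h3.congr ?_
        intro k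
        rw [ev_cons, hε2, ← hy]
        have : (j + 1) * k = j * k + k := by ring
        rw [this, pow_add]
        rfl
    · -- different letter
      have hnofix : t y.1 p ≠ p := by
        intro hcon
        refine hno p ?_ ?_ ?_
        · exact le_trans (hb (Nat.zero_le _)) hp1
        · refine le_trans hp2 (hb (by omega))
        · rcases Bool.eq_false_or_eq_true c with hc | hc <;>
            rcases Bool.eq_false_or_eq_true y.1 with hy | hy
          · exact absurd (hy.trans hc.symm) hcy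
          · rw [hc] at htp; rw [hy] at hcon; exact ⟨htp, hcon⟩
          · rw [hc] at htp; rw [hy] at hcon; exact ⟨hcon, htp⟩
          · exact absurd (hy.trans hc.symm) hcy
      have hs : sg t y p ≠ p := fun h => hnofix ((sg_fix_iff t y p).mp h)
      obtain ⟨q1, hq11, hq12, hq13⟩ := hfix (n - L.length - 1) y.1
      obtain ⟨q2, hq21, hq22, hq23⟩ := hfix (n + 1 + L.length) y.1
      have hidx : n - L.length - 1 + 1 = n - L.length := by omega
      rw [hidx] at hq12
      obtain ⟨p', hp'1, hp'2, hp'3, hp'4⟩ := lim_both hs ((sg_fix_iff t y q1).mpr hq13)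
        ((sg_fix_iff t y q2).mpr hq23) (hq12.trans hp1) (hp2.trans hq21)
      refine ⟨p', y.1, ?_, ?_, ?_, (sg_fix_iff t y p').mp hp'1, ?_, ?_⟩
      · refine le_trans ?_ (hq11.trans hp'2)
        apply hb
        simp only [List.length_cons]
        omega
      · refine le_trans (hp'3.trans hq22) ?_
        apply hb
        simp only [List.length_cons]
        omega
      · intro x hx
        simp only [List.head?_cons, Option.mem_def, Option.some.injEq] at hx
        rw [← hx]
      · have h3 := hp'4 _ htend 0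
        refine h3.congr ?_
        intro k
        rw [ev_cons, zero_add, one_mul]
      · intro ε hε j
        have hε2 : ε = y.2 := (FreeGroup.isReduced_cons_cons.mp hε).1 rfl
        have h3 := hp'4 _ htend j
        refine h3.congr ?_
        intro k
        rw [ev_cons, hε2]
        have : (j + 1) * k = j * k + k := by ring
        rw [this, pow_add]
        rfl

/-- Two automorphisms with many fixed points but no common ones in a large window do not satisfy
the law given by the reduced word `L`. -/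
theorem dyn_main (t : Bool → (Ω ≃o Ω)) (b : ℕ → Ω) (hb : Monotone b)
    (hfix : ∀ j c, ∃ p, b j ≤ p ∧ p ≤ b (j + 1) ∧ t c p = p)
    (L : List (Bool × Bool)) (hL : FreeGroup.IsReduced L) (hne : L ≠ [])
    (hno : ∀ p, b 0 ≤ p → p ≤ b (2 * L.length + 1) → ¬ (t true p = p ∧ t false p = p)) :
    ∃ k, ev t L k ≠ 1 := by
  by_contra hcon
  push Not at hcon
  obtain ⟨y, L', rfl⟩ : ∃ y L', L = y :: L' := List.exists_cons_of_ne_nil hne
  obtain ⟨x0, hx1, hx2, hx3⟩ := hfix (y :: L').length (!y.1)
  obtain ⟨p, c, hp1, hp2, hhead, htp, htend, _⟩ :=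
    dyn_claim t b hb hfix _ hno x0 hx1 hx2 (!y.1) hx3 (y :: L') hL le_rfl
  have hc : y.1 = c := hhead y (by simp)
  have hx : p = x0 := by
    have : (fun k => ev t (y :: L') k x0) = fun _ => x0 := by
      funext k
      rw [hcon k]
      rfl
    rw [this] at htend
    exact tendsto_nhds_unique htend tendsto_const_nhds |>.symm ▸ rfl
  rw [hx] at htp hp1 hp2
  refine hno x0 ?_ ?_ ?_
  · exact le_trans (hb (Nat.zero_le _)) hx1
  · exact le_trans hx2 (hb (by omega))
  · rcases Bool.eq_false_or_eq_true y.1 with hy | hy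
    · rw [hy] at hx3 hc
      rw [← hc] at htp
      exact ⟨htp, hx3⟩
    · rw [hy] at hx3 hc
      rw [← hc] at htp
      exact ⟨hx3, htp⟩

theorem lift_eq_ev (t : Bool → (Ω ≃o Ω)) (v : FreeGroup Bool) (k : ℕ) :
    FreeGroup.lift (fun c => (t c) ^ k) v = ev t v.toWord k := by
  conv_lhs => rw [← FreeGroup.mk_toWord (x := v)]
  rw [FreeGroup.lift_mk]
  unfold ev sg
  congr 1
  apply List.map_congr_left
  rintro ⟨c, ε⟩ _
  cases ε <;> simp

/-- Law version. -/
theorem dyn_law (t : Bool → (Ω ≃o Ω)) (v : FreeGroup Bool) (hv : v ≠ 1)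
    (hlaw : ∀ k : ℕ, FreeGroup.lift (fun c => (t c) ^ k) v = 1)
    (b : ℕ → Ω) (hb : Monotone b)
    (hfix : ∀ j c, ∃ p, b j ≤ p ∧ p ≤ b (j + 1) ∧ t c p = p) :
    ∃ p, b 0 ≤ p ∧ p ≤ b (2 * v.toWord.length + 1) ∧ t true p = p ∧ t false p = p := by
  by_contra hcon
  push Not at hcon
  obtain ⟨k, hk⟩ := dyn_main t b hb hfix v.toWord FreeGroup.isReduced_toWord
    (fun h => hv (FreeGroup.toWord_eq_nil_iff.mp h))
    (fun p h1 h2 h3 => hcon p h1 h2 h3.1 h3.2)
  exact hk (by rw [← lift_eq_ev, hlaw])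

end Pool.Agent.Lib.MP_bb0160_al
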