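import Mathlib
import Pool.Agent.Lib.MP_bb0160_al.H54Dyn

set_option autoImplicit false
set_option linter.unusedSectionVars false

/-!
A group with a law acting on a complete linear order: common fixed points of finitely many
elements with unbounded sets of fixed points are unbounded.
-/

namespace Pool.Agent.Lib.MP_bb0160_al

open Set Filter Topology

variable {Ω : Type*} [CompleteLinearOrder Ω] [TopologicalSpace Ω] [OrderTopology Ω]

/-- The common fixed points of `A` below the top are unbounded. -/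
def Unb (A : Set (Ω ≃o Ω)) : Prop := ∀ x, x < ⊤ → ∃ p, x ≤ p ∧ p < ⊤ ∧ ∀ g ∈ A, g p = p

theorem unb_step (Γ : Subgroup (Ω ≃o Ω)) (v : FreeGroup Bool) (hv : v ≠ 1)
    (hlaw : ∀ f : Bool → (Ω ≃o Ω), (∀ c, f c ∈ Γ) → FreeGroup.lift f v = 1)
    (H : Subgroup (Ω ≃o Ω)) (hH : H ≤ Γ) (y : Ω ≃o Ω) (hy : y ∈ Γ)
    (h1 : Unb (H : Set (Ω ≃o Ω))) (h2 : Unb ({y} : Set (Ω ≃o Ω))) :
    Unb (insert y (H : Set (Ω ≃o Ω))) := by
  intro M hM
  by_contra hcon
  push Not at hcon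
  have hstep : ∀ x : {x : Ω // x < ⊤}, ∃ x' : {x : Ω // x < ⊤},
      (∃ p, x.1 ≤ p ∧ p ≤ x'.1 ∧ ∀ h ∈ H, h p = p) ∧ (∃ q, x.1 ≤ q ∧ q ≤ x'.1 ∧ y q = q) := by
    rintro ⟨x, hx⟩
    obtain ⟨p, hp1, hp2, hp3⟩ := h1 x hx
    obtain ⟨q, hq1, hq2, hq3⟩ := h2 p hp2
    exact ⟨⟨q, hq2⟩, ⟨p, hp1, hq1, hp3⟩, ⟨q, hp1.trans hq1, le_rfl, hq3 y rfl⟩⟩
  choose nx hnx using hstep
  let B : ℕ → {x : Ω // x < ⊤} := fun n => Nat.rec ⟨M, hM⟩ (fun _ x => nx x) n
  have hB : ∀ n, B (n + 1) = nx (B n) := fun n => rfl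
  let b : ℕ → Ω := fun n => (B n).1
  have hb : Monotone b := by
    apply monotone_nat_of_le_succ
    intro n
    obtain ⟨p, hp1, hp2, _⟩ := (hnx (B n)).1
    exact hp1.trans hp2
  set n := v.toWord.length with hn
  set Q : Set Ω := Icc (b 0) (b (2 * n + 1)) ∩ {q | y q = q} with hQ
  have hQc : IsCompact Q := by
    apply IsClosed.isCompact
    apply isClosed_Icc.inter
    exact isClosed_eq y.continuous continuous_id
  obtain ⟨z, hz, hzQ⟩ := exists_no_fix (H := H) hQc (by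
    rintro q ⟨⟨hq1, hq2⟩, hq3⟩
    obtain ⟨g, hg, hgq⟩ := hcon q hq1 (lt_of_le_of_lt hq2 (B (2 * n + 1)).2)
    rcases hg with rfl | hg
    · exact absurd hq3 hgq
    · exact ⟨g, hg, hgq⟩)
  obtain ⟨p, hp1, hp2, hp3, hp4⟩ := dyn_law (fun c : Bool => if c then y else z) v hv (by
    intro k
    apply hlaw
    intro c
    apply Γ.pow_mem
    cases c
    · exact hH hz
    · exact hy) b hb (by
    intro j c
    obtain ⟨⟨p, hp1, hp2, hp3⟩, ⟨q, hq1, hq2, hq3⟩⟩ := hnx (B j)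
    cases c
    · exact ⟨p, hp1, hp2, hp3 z hz⟩
    · exact ⟨q, hq1, hq2, hq3⟩)
  exact hzQ p ⟨⟨hp1, hp2⟩, hp3⟩ hp4

theorem unb_finset (Γ : Subgroup (Ω ≃o Ω)) (v : FreeGroup Bool) (hv : v ≠ 1)
    (hlaw : ∀ f : Bool → (Ω ≃o Ω), (∀ c, f c ∈ Γ) → FreeGroup.lift f v = 1)
    (F : Set (Ω ≃o Ω)) (hF : F.Finite) :
    (∀ g ∈ F, g ∈ Γ ∧ Unb ({g} : Set (Ω ≃o Ω))) →
      Unb (Subgroup.closure F : Set (Ω ≃o Ω)) := by
  refine Set.Finite.induction_on (motive := fun F _ => (∀ g ∈ F, g ∈ Γ ∧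
    Unb ({g} : Set (Ω ≃o Ω))) → Unb (Subgroup.closure F : Set (Ω ≃o Ω))) F hF ?_ ?_
  · intro _ x hx
    refine ⟨x, le_rfl, hx, ?_⟩
    intro g hg
    rw [Subgroup.closure_empty] at hg
    have : g = 1 := by simpa using hg
    rw [this]
    rfl
  · intro y F _ _ ih hall
    have ih' := ih (fun g hg => hall g (Set.mem_insert_of_mem _ hg))
    have hle : Subgroup.closure F ≤ Γ :=
      (Subgroup.closure_le Γ).mpr (fun g hg => (hall g (Set.mem_insert_of_mem _ hg)).1)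
    have hy := hall y (Set.mem_insert _ _)
    have hs := unb_step Γ v hv hlaw (Subgroup.closure F) hle y hy.1 ih' hy.2
    intro x hx
    obtain ⟨p, hp1, hp2, hp3⟩ := hs x hx
    refine ⟨p, hp1, hp2, ?_⟩
    intro g hg
    have hg' : g ∈ Subgroup.closure (insert y F) := hg
    induction hg' using Subgroup.closure_induction with
    | mem a ha =>
      rcases ha with rfl | ha
      · exact hp3 _ (Set.mem_insert _ _)
      · exact hp3 _ (Set.mem_insert_of_mem _ (Subgroup.subset_closure ha))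
    | one => rfl
    | mul a b ha hb iha ihb =>
      rw [oi_mul_apply, ihb hb, iha ha]
    | inv a ha iha => exact oi_inv_fix (iha ha)

end Pool.Agent.Lib.MP_bb0160_al
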