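import Mathlib
import Pool.Agent.Lib.MP_bb0160_al.H54Common

set_option autoImplicit false
set_option linter.unusedSectionVars false

/-!
Cuts of a right-ordered group with a law.
-/

namespace Pool.Agent.Lib.MP_bb0160_al

open Set

variable {H : Type*} [Group H] [LinearOrder H]

/-- Some orbit of the right multiplication by `g` is bounded above. -/
def OrbBdd (g : H) : Prop := ∃ x y : H, ∀ n : ℤ, x * g ^ n < y

/-- The cut `p` is fixed by the right multiplication by `g`. -/
def FixCut (g : H) (p : LowerSet H) : Prop := ∀ x, x * g ∈ p ↔ x ∈ p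

theorem mul_le_of (hmul : ∀ a b c : H, a < b → a * c < b * c) {a b : H} (c : H) (h : a ≤ b) :
    a * c ≤ b * c := by
  rcases h.eq_or_lt with rfl | h
  · exact le_rfl
  · exact (hmul a b c h).le

/-- The action on cuts. -/
def cutIso (hmul : ∀ a b c : H, a < b → a * c < b * c) (g : H) : LowerSet H ≃o LowerSet H where
  toFun p := ⟨{x | x * g ∈ p}, fun _ _ hab ha => p.lower (mul_le_of hmul g hab) ha⟩
  invFun p := ⟨{x | x * g⁻¹ ∈ p}, fun _ _ hab ha => p.lower (mul_le_of hmul g⁻¹ hab) ha⟩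
  left_inv p := by
    ext x
    change x * g⁻¹ * g ∈ p ↔ x ∈ p
    rw [inv_mul_cancel_right]
  right_inv p := by
    ext x
    change x * g * g⁻¹ ∈ p ↔ x ∈ p
    rw [mul_inv_cancel_right]
  map_rel_iff' := by
    intro p q
    constructor
    · intro h x hx
      have h1 : x * g⁻¹ ∈ (⟨{x | x * g ∈ p}, fun _ _ hab ha =>
          p.lower (mul_le_of hmul g hab) ha⟩ : LowerSet H) := by
        change x * g⁻¹ * g ∈ p
        rw [inv_mul_cancel_right]
        exact hx
      have h2 := h h1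
      change x * g⁻¹ * g ∈ q at h2
      rw [inv_mul_cancel_right] at h2
      exact h2
    · intro h x hx
      exact h hx

theorem mem_cutIso (hmul : ∀ a b c : H, a < b → a * c < b * c) (g : H) (p : LowerSet H) (x : H) :
    x ∈ cutIso hmul g p ↔ x * g ∈ p := Iff.rfl

/-- The action on cuts as a homomorphism. -/
def cutHom (hmul : ∀ a b c : H, a < b → a * c < b * c) : H →* (LowerSet H ≃o LowerSet H) where
  toFun := cutIso hmul
  map_one' := by
    apply RelIso.ext
    intro p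
    ext x
    change x * 1 ∈ p ↔ x ∈ p
    rw [mul_one]
  map_mul' := by
    intro g h
    apply RelIso.ext
    intro p
    ext x
    change x * (g * h) ∈ p ↔ x * g * h ∈ p
    rw [mul_assoc]

theorem cutHom_fix (hmul : ∀ a b c : H, a < b → a * c < b * c) (g : H) (p : LowerSet H) :
    cutHom hmul g p = p ↔ FixCut g p := by
  constructor
  · intro h x
    have : x ∈ cutHom hmul g p ↔ x ∈ p := by rw [h]
    exact this
  · intro h
    ext x
    exact h x

theorem fixCut_inv {g : H} {p : LowerSet H} (h : FixCut g p) : FixCut g⁻¹ p := by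
  intro x
  rw [← h (x * g⁻¹), inv_mul_cancel_right]

theorem fixCut_mul {g k : H} {p : LowerSet H} (h : FixCut g p) (h' : FixCut k p) :
    FixCut (g * k) p := by
  intro x
  rw [← mul_assoc, h', h]

theorem fixCut_zpow {g : H} {p : LowerSet H} (h : FixCut g p) (n : ℤ) : FixCut (g ^ n) p := by
  induction n using Int.induction_on with
  | zero => intro x; simp
  | succ n ih =>
    rw [zpow_add_one]
    exact fixCut_mul ih h
  | pred n ih =>
    rw [zpow_sub_one]
    exact fixCut_mul ih (fixCut_inv h)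

theorem orb_of_cut {g : H} {p : LowerSet H} (h : FixCut g p) {x y : H} (hx : x ∈ p) (hy : y ∉ p)
    (n : ℤ) : x * g ^ n < y := by
  by_contra hcon
  push Not at hcon
  exact hy (p.lower hcon ((fixCut_zpow h n x).mpr hx))

theorem cut_of_orb (hmul : ∀ a b c : H, a < b → a * c < b * c) {g x y : H}
    (h : ∀ n : ℤ, x * g ^ n < y) : ∃ p : LowerSet H, x ∈ p ∧ y ∉ p ∧ FixCut g p := by
  refine ⟨⟨{w | ∃ n : ℤ, w ≤ x * g ^ n}, ?_⟩, ⟨0, by simp⟩, ?_, ?_⟩
  · rintro a b hab ⟨n, hn⟩
    exact ⟨n, hab.trans hn⟩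
  · rintro ⟨n, hn⟩
    exact absurd (h n) (not_lt.mpr hn)
  · intro w
    constructor
    · rintro ⟨n, hn⟩
      refine ⟨n - 1, ?_⟩
      have := mul_le_of hmul g⁻¹ hn
      rw [mul_inv_cancel_right, mul_assoc, ← zpow_sub_one] at this
      exact this
    · rintro ⟨n, hn⟩
      refine ⟨n + 1, ?_⟩
      have := mul_le_of hmul g hn
      rw [mul_assoc, ← zpow_add_one] at this
      exact this

theorem orbBdd_iff (hmul : ∀ a b c : H, a < b → a * c < b * c) {g : H} :
    OrbBdd g ↔ ∃ p : LowerSet H, (∃ x, x ∈ p) ∧ (∃ y, y ∉ p) ∧ FixCut g p := by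
  constructor
  · rintro ⟨x, y, h⟩
    obtain ⟨p, h1, h2, h3⟩ := cut_of_orb hmul h
    exact ⟨p, ⟨x, h1⟩, ⟨y, h2⟩, h3⟩
  · rintro ⟨p, ⟨x, hx⟩, ⟨y, hy⟩, h⟩
    exact ⟨x, y, orb_of_cut h hx hy⟩

/-- Common fixed cuts of finitely many elements with bounded orbits. -/
theorem cut_common (hmul : ∀ a b c : H, a < b → a * c < b * c)
    (v : FreeGroup Bool) (hv : v ≠ 1) (hlaw : ∀ f : Bool → H, FreeGroup.lift f v = 1)
    (hR : ∀ g : H, OrbBdd g → ∀ z : H, ∃ x y : H, z < x ∧ ∀ n : ℤ, x * g ^ n < y)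
    (F : Set H) (hF : F.Finite) (hFN : ∀ g ∈ F, OrbBdd g) (z : H) (hz : ∃ y, z < y) :
    ∃ p : LowerSet H, z ∈ p ∧ (∃ y, y ∉ p) ∧ ∀ g ∈ F, FixCut g p := by
  letI : TopologicalSpace (LowerSet H) := Preorder.topology _
  haveI : OrderTopology (LowerSet H) := ⟨rfl⟩
  set ρ := cutHom hmul with hρ
  have hlaw' : ∀ f : Bool → (LowerSet H ≃o LowerSet H), (∀ c, f c ∈ ρ.range) →
      FreeGroup.lift f v = 1 := by
    intro f hf
    choose h hh using hf
    have hcomp : ρ.comp (FreeGroup.lift h) = FreeGroup.lift f := by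
      apply FreeGroup.ext_hom
      intro c
      simp only [MonoidHom.comp_apply, FreeGroup.lift_apply_of]
      exact hh c
    rw [← hcomp, MonoidHom.comp_apply, hlaw h, map_one]
  have hunb : Unb (Subgroup.closure (ρ '' F) : Set (LowerSet H ≃o LowerSet H)) := by
    apply unb_finset ρ.range v hv hlaw' (ρ '' F) (hF.image _)
    rintro _ ⟨g, hg, rfl⟩
    refine ⟨⟨g, rfl⟩, ?_⟩
    intro X hX
    obtain ⟨w, hw⟩ : ∃ w, w ∉ X := by
      by_contra hcon
      push Not at hcon
      apply hX.ne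
      ext w
      exact ⟨fun _ => trivial, fun _ => hcon w⟩
    obtain ⟨x, y, hwx, hxy⟩ := hR g (hFN g hg) w
    obtain ⟨p, hp1, hp2, hp3⟩ := cut_of_orb hmul hxy
    refine ⟨p, ?_, ?_, ?_⟩
    · intro a ha
      apply p.lower _ hp1
      apply le_trans _ hwx.le
      by_contra hcon
      push Not at hcon
      exact hw (X.lower hcon.le ha)
    · rw [lt_top_iff_ne_top]
      rintro rfl
      exact hp2 trivial
    · intro k hk
      rw [Set.mem_singleton_iff] at hk
      rw [hk]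
      exact (cutHom_fix hmul g p).mpr hp3
  obtain ⟨y, hy⟩ := hz
  obtain ⟨p, hp1, hp2, hp3⟩ := hunb (LowerSet.Iic z) (by
    rw [lt_top_iff_ne_top]
    intro h
    have : y ∈ LowerSet.Iic z := by rw [h]; trivial
    exact absurd hy (not_lt.mpr this))
  refine ⟨p, hp1 (show z ≤ z from le_rfl), ?_, ?_⟩
  · by_contra hcon
    push Not at hcon
    apply hp2.ne
    ext w
    exact ⟨fun _ => trivial, fun _ => hcon w⟩
  · intro g hg
    exact (cutHom_fix hmul g p).mp (hp3 (ρ g) (Subgroup.subset_closure ⟨g, hg, rfl⟩))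

theorem pos_all (hmul : ∀ a b c : H, a < b → a * c < b * c) {g : H} (hg : ¬ OrbBdd g)
    (h1 : 1 < g) (y : H) : y < y * g := by
  by_contra hcon
  push Not at hcon
  -- a low power
  obtain ⟨m, hm⟩ : ∃ m : ℤ, g ^ m ≤ y := by
    by_contra hc
    push Not at hc
    apply hg
    refine ⟨y, 1, ?_⟩
    intro n
    have := hmul _ _ (g ^ n) (hc (-n))
    rwa [← zpow_add, neg_add_cancel, zpow_zero] at this
  obtain ⟨k, hk⟩ : ∃ k : ℤ, g * y ≤ g ^ k := by
    by_contra hc
    push Not at hc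
    apply hg
    exact ⟨1, g * y, fun n => by rw [one_mul]; exact hc n⟩
  have hyk : y < g ^ k := by
    have := hmul _ _ y h1
    rw [one_mul] at this
    exact lt_of_lt_of_le this hk
  have hup : ∀ j : ℕ, g ^ (m + j) ≤ y := by
    intro j
    induction j with
    | zero => simpa using hm
    | succ j ih =>
      have := mul_le_of hmul g ih
      rw [← zpow_add_one] at this
      push_cast
      rw [← add_assoc]
      exact this.trans hcon
  have hmono : ∀ (a : ℤ) (i : ℕ), g ^ a ≤ g ^ (a + i) := by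
    intro a i
    induction i with
    | zero => simp
    | succ i ih =>
      refine ih.trans ?_
      have := hmul _ _ (g ^ (a + i)) h1
      rw [one_mul, ← zpow_one_add] at this
      push_cast
      rw [← add_assoc, add_comm (a + (i : ℤ)) 1]
      exact this.le
  have h2 := hmono k (m - k).natAbs
  have h3 := hup (k + (m - k).natAbs - m).toNat
  have h4 : m + ((k + (m - k).natAbs - m).toNat : ℤ) = k + ((m - k).natAbs : ℤ) := by
    have : (0 : ℤ) ≤ k + (m - k).natAbs - m := by omega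
    rw [Int.toNat_of_nonneg this]
    ring
  rw [h4] at h3
  exact absurd (lt_of_lt_of_le hyk (h2.trans h3)) (lt_irrefl _)

/-- The conclusion about a finitely generated group: it has a nontrivial quotient with a
bi-invariant order, described by the kernel `N` and the positive cone `P`. -/
structure BiQuot (N P : Set H) : Prop where
  disj : ∀ g, g ∈ N → g ∉ P
  one_mem : (1 : H) ∈ N
  total : ∀ g, g ∈ N ∨ g ∈ P ∨ g⁻¹ ∈ P
  mulP : ∀ g h, g ∈ P → h ∈ P → g * h ∈ P
  mulN : ∀ g h, g ∈ N → h ∈ N → g * h ∈ N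
  invN : ∀ g, g ∈ N → g⁻¹ ∈ N
  mulPN : ∀ g h, g ∈ P → h ∈ N → g * h ∈ P
  mulNP : ∀ g h, g ∈ N → h ∈ P → g * h ∈ P
  conjP : ∀ a g, g ∈ P → a * g * a⁻¹ ∈ P
  conjN : ∀ a g, g ∈ N → a * g * a⁻¹ ∈ N

theorem biQuot_of (hmul : ∀ a b c : H, a < b → a * c < b * c)
    (v : FreeGroup Bool) (hv : v ≠ 1) (hlaw : ∀ f : Bool → H, FreeGroup.lift f v = 1)
    (hR : ∀ g : H, OrbBdd g → ∀ z : H, ∃ x y : H, z < x ∧ ∀ n : ℤ, x * g ^ n < y)
    (hnt : ∃ x y : H, x < y) (S : Set H) (hS : S.Finite) (hcl : Subgroup.closure S = ⊤) :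
    BiQuot {g : H | OrbBdd g} {g : H | ¬ OrbBdd g ∧ 1 < g} ∧ ∃ s ∈ S, ¬ OrbBdd s := by
  obtain ⟨x0, y0, hxy0⟩ := hnt
  have hmulN : ∀ g h : H, OrbBdd g → OrbBdd h → OrbBdd (g * h) := by
    intro g h hg hh
    obtain ⟨p, hp1, ⟨y, hp2⟩, hp3⟩ := cut_common hmul v hv hlaw hR {g, h} (by simp) (by
      intro k hk
      rcases hk with rfl | hk
      · exact hg
      · rw [Set.mem_singleton_iff] at hk
        rw [hk]
        exact hh) x0 ⟨y0, hxy0⟩
    exact ⟨x0, y, orb_of_cut (fixCut_mul (hp3 g (by simp)) (hp3 h (by simp))) hp1 hp2⟩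
  have hinvN : ∀ g : H, OrbBdd g → OrbBdd g⁻¹ := by
    rintro g ⟨x, y, h⟩
    refine ⟨x, y, ?_⟩
    intro n
    have := h (-n)
    rwa [zpow_neg, ← inv_zpow] at this
  have hconjN : ∀ a g : H, OrbBdd g → OrbBdd (a * g * a⁻¹) := by
    rintro a g ⟨x, y, h⟩
    refine ⟨x * a⁻¹, y * a⁻¹, ?_⟩
    intro n
    rw [conj_zpow]
    have h1 := hmul _ _ a⁻¹ (h n)
    have h2 : x * a⁻¹ * (a * g ^ n * a⁻¹) = x * g ^ n * a⁻¹ := by group
    rw [h2]
    exact h1
  have hmulP : ∀ g h : H, (¬ OrbBdd g ∧ 1 < g) → (¬ OrbBdd h ∧ 1 < h) →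
      (¬ OrbBdd (g * h) ∧ 1 < g * h) := by
    rintro g h ⟨hg, hg1⟩ ⟨hh, hh1⟩
    refine ⟨?_, hg1.trans (pos_all hmul hh hh1 g)⟩
    intro hcon
    obtain ⟨p, ⟨x, hx⟩, ⟨y, hy⟩, hp⟩ := (orbBdd_iff hmul).mp hcon
    apply hh
    apply (orbBdd_iff hmul).mpr
    refine ⟨p, ⟨x, hx⟩, ⟨y, hy⟩, ?_⟩
    intro w
    constructor
    · intro hw
      exact p.lower (pos_all hmul hh hh1 w).le hw
    · intro hw
      have h1 : w * g⁻¹ < w := by
        have := pos_all hmul hg hg1 (w * g⁻¹)
        rwa [inv_mul_cancel_right] at this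
      have h2 : w * g⁻¹ ∈ p := p.lower h1.le hw
      have h3 := (hp (w * g⁻¹)).mpr h2
      rwa [← mul_assoc, inv_mul_cancel_right] at h3
  have hinvpos : ∀ g : H, g < 1 → 1 < g⁻¹ := by
    intro g hg
    have := hmul _ _ g⁻¹ hg
    rwa [mul_inv_cancel, one_mul] at this
  have hone : OrbBdd (1 : H) := ⟨x0, y0, fun n => by simpa using hxy0⟩
  have hneg : ∀ g : H, ¬ OrbBdd g → ¬ (1 < g) → (¬ OrbBdd g⁻¹ ∧ 1 < g⁻¹) := by
    intro g hg hg1
    refine ⟨fun h => hg (by simpa using hinvN _ h), ?_⟩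
    apply hinvpos
    rcases lt_trichotomy g 1 with h | h | h
    · exact h
    · exact absurd (h ▸ hone) hg
    · exact absurd h hg1
  refine ⟨⟨?_, hone, ?_, hmulP, hmulN, hinvN, ?_, ?_, ?_, hconjN⟩, ?_⟩
  · intro g hg hP
    exact hP.1 hg
  · intro g
    by_cases h : OrbBdd g
    · exact Or.inl h
    · by_cases h1 : 1 < g
      · exact Or.inr (Or.inl ⟨h, h1⟩)
      · exact Or.inr (Or.inr (hneg g h h1))
  · -- P * N
    rintro g n hg hn
    have hgn : ¬ OrbBdd (g * n) := by
      intro hcon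
      apply hg.1
      have := hmulN _ _ hcon (hinvN _ hn)
      rwa [mul_inv_cancel_right] at this
    refine ⟨hgn, ?_⟩
    by_contra hcon
    have h1 := hneg _ hgn hcon
    have h2 := hmulP _ _ h1 hg
    apply h2.1
    have h3 : (g * n)⁻¹ * g = n⁻¹ := by group
    rw [h3]
    exact hinvN _ hn
  · -- N * P
    rintro n g hn hg
    have hgn : ¬ OrbBdd (n * g) := by
      intro hcon
      apply hg.1
      have := hmulN _ _ (hinvN _ hn) hcon
      rwa [inv_mul_cancel_left] at this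
    refine ⟨hgn, ?_⟩
    by_contra hcon
    have h1 := hneg _ hgn hcon
    have h2 := hmulP _ _ hg h1
    apply h2.1
    have h3 : g * (n * g)⁻¹ = n⁻¹ := by group
    rw [h3]
    exact hinvN _ hn
  · rintro a g ⟨hg, hg1⟩
    refine ⟨?_, ?_⟩
    · intro hcon
      apply hg
      have := hconjN a⁻¹ _ hcon
      have h3 : a⁻¹ * (a * g * a⁻¹) * a⁻¹⁻¹ = g := by group
      rwa [h3] at this
    · have h1 := hmul _ _ a⁻¹ (pos_all hmul hg hg1 a)
      rwa [mul_inv_cancel] at h1
  · by_contra hcon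
    push Not at hcon
    obtain ⟨p, hp1, ⟨y, hp2⟩, hp3⟩ := cut_common hmul v hv hlaw hR S hS hcon x0 ⟨y0, hxy0⟩
    have hall : ∀ g : H, FixCut g p := by
      intro g
      have hg : g ∈ Subgroup.closure S := by rw [hcl]; trivial
      induction hg using Subgroup.closure_induction with
      | mem a ha => exact hp3 a ha
      | one => intro x; rw [mul_one]
      | mul a b _ _ iha ihb => exact fixCut_mul iha ihb
      | inv a _ iha => exact fixCut_inv iha
    apply hp2
    have := (hall (x0⁻¹ * y) x0).mpr hp1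
    rwa [mul_inv_cancel_left] at this

end Pool.Agent.Lib.MP_bb0160_al
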