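import Mathlib

set_option autoImplicit false

/-!
Reduction of a law in finitely many variables to a law in two variables.
-/

namespace Pool.Agent.Lib.MP_bb0160_al

/-- The shift action of the integers on the free group on the integers. -/
noncomputable def shiftHom : Multiplicative ℤ →* MulAut (FreeGroup ℤ) :=
  zpowersHom (MulAut (FreeGroup ℤ)) (FreeGroup.freeGroupCongr (Equiv.addRight (1 : ℤ)))

theorem shift_pow_nat (n : ℕ) (j : ℤ) :
    ((FreeGroup.freeGroupCongr (Equiv.addRight (1 : ℤ)) : MulAut (FreeGroup ℤ)) ^ n)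
      (FreeGroup.of j) = FreeGroup.of (j + n) := by
  induction n generalizing j with
  | zero => simp
  | succ n ih =>
    rw [pow_succ, MulAut.mul_apply]
    have : (FreeGroup.freeGroupCongr (Equiv.addRight (1 : ℤ)) : MulAut (FreeGroup ℤ))
        (FreeGroup.of j) = FreeGroup.of (j + 1) := by
      simp [FreeGroup.freeGroupCongr]
    rw [this, ih]
    congr 1
    push_cast
    ring

theorem shiftHom_apply (i : ℤ) (j : ℤ) :
    shiftHom (Multiplicative.ofAdd i) (FreeGroup.of j) = FreeGroup.of (j + i) := by
  unfold shiftHom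
  rw [zpowersHom_apply]
  simp only [toAdd_ofAdd]
  rcases Int.eq_nat_or_neg i with ⟨n, rfl | rfl⟩
  · rw [zpow_natCast, shift_pow_nat]
  · rw [zpow_neg, zpow_natCast]
    rw [MulAut.inv_apply]
    rw [MulEquiv.symm_apply_eq, shift_pow_nat]
    congr 1
    ring

/-- The free group on the integers maps to the free group on two letters. -/
noncomputable def embZ : FreeGroup ℤ →* FreeGroup Bool :=
  FreeGroup.lift (fun i : ℤ =>
    (FreeGroup.of true) ^ i * FreeGroup.of false * ((FreeGroup.of true) ^ i)⁻¹)

noncomputable def backZ : FreeGroup Bool →* FreeGroup ℤ ⋊[shiftHom] Multiplicative ℤ :=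
  FreeGroup.lift (fun b : Bool => if b then SemidirectProduct.inr (Multiplicative.ofAdd 1)
    else SemidirectProduct.inl (FreeGroup.of 0))

theorem backZ_embZ (w : FreeGroup ℤ) : backZ (embZ w) = SemidirectProduct.inl w := by
  have : backZ.comp embZ = SemidirectProduct.inl := by
    apply FreeGroup.ext_hom
    intro i
    simp only [MonoidHom.comp_apply, embZ, FreeGroup.lift_apply_of, map_mul, map_zpow, map_inv]
    simp only [backZ, FreeGroup.lift_apply_of, if_true, Bool.false_eq_true, if_false]
    rw [← map_zpow, ← map_inv, ← SemidirectProduct.inl_aut]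
    congr 1
    have : (Multiplicative.ofAdd (1 : ℤ)) ^ i = Multiplicative.ofAdd i := by
      rw [← ofAdd_zsmul]; simp
    rw [this, shiftHom_apply]
    simp
  exact DFunLike.congr_fun this w

theorem embZ_injective : Function.Injective embZ := by
  intro a b h
  have := congrArg backZ h
  rw [backZ_embZ, backZ_embZ] at this
  exact SemidirectProduct.inl_injective this

/-- Every law in finitely many variables yields a law in two variables. -/
theorem law_two {G : Type*} [Group G] {k : ℕ} (w : FreeGroup (Fin k)) (hw : w ≠ 1)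
    (hlaw : ∀ f : Fin k → G, FreeGroup.lift f w = 1) :
    ∃ v : FreeGroup Bool, v ≠ 1 ∧ ∀ f : Bool → G, FreeGroup.lift f v = 1 := by
  refine ⟨embZ (FreeGroup.map (fun i : Fin k => ((i : ℕ) : ℤ)) w), ?_, ?_⟩
  · intro h
    apply hw
    have h1 : embZ (FreeGroup.map (fun i : Fin k => ((i : ℕ) : ℤ)) w) = embZ 1 := by
      rw [h, map_one]
    have h2 := embZ_injective h1
    have h3 : FreeGroup.map (fun i : Fin k => ((i : ℕ) : ℤ)) w
        = FreeGroup.map (fun i : Fin k => ((i : ℕ) : ℤ)) 1 := by
      rw [h2, map_one]
    apply FreeGroup.map_injective _ h3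
    intro a b hab
    have hab' : ((a : ℕ) : ℤ) = ((b : ℕ) : ℤ) := hab
    exact Fin.ext (by exact_mod_cast hab')
  · intro f
    have key : ((FreeGroup.lift f).comp (embZ.comp
        (FreeGroup.map (fun i : Fin k => ((i : ℕ) : ℤ))))) =
        FreeGroup.lift (fun i : Fin k =>
          f true ^ ((i : ℕ) : ℤ) * f false * (f true ^ ((i : ℕ) : ℤ))⁻¹) := by
      apply FreeGroup.ext_hom
      intro i
      simp only [MonoidHom.comp_apply, FreeGroup.map.of, embZ, FreeGroup.lift_apply_of, map_mul,
        map_zpow, map_inv]
    have := DFunLike.congr_fun key w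
    simp only [MonoidHom.comp_apply] at this
    rw [this]
    exact hlaw _

end Pool.Agent.Lib.MP_bb0160_al
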