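import Mathlib

set_option autoImplicit false
set_option linter.unusedSectionVars false

/-!
The space of right orders of a countable group: a minimal closed invariant set and a generic
order in it.
-/

namespace Pool.Agent.Lib.MP_bb0160_al

open Set Topology

variable {H : Type*} [Group H]

/-- The set of positive cones. -/
def coneSet (H : Type*) [Group H] : Set (H → Bool) :=
  {σ | σ 1 = false ∧ (∀ g, g ≠ 1 → σ g = true ∨ σ g⁻¹ = true) ∧
    ∀ g h, σ g = true → σ h = true → σ (g * h) = true}

/-- Conjugation, i.e. change of the base point. -/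
def cj (a : H) (σ : H → Bool) : H → Bool := fun g => σ (a * g * a⁻¹)

theorem cj_cj (a b : H) (σ : H → Bool) : cj b (cj a σ) = cj (a * b) σ := by
  funext g
  simp only [cj]
  congr 1
  group

theorem cj_one (σ : H → Bool) : cj 1 σ = σ := by
  funext g
  simp [cj]

theorem continuous_cj (a : H) : Continuous (cj a) := by
  apply continuous_pi
  intro g
  exact continuous_apply _

theorem isClosed_coneSet : IsClosed (coneSet H) := by
  have h1 : IsClosed {σ : H → Bool | σ 1 = false} :=
    isClosed_eq (continuous_apply (1 : H)) continuous_const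
  have h2 : ∀ g : H, IsClosed {σ : H → Bool | g ≠ 1 → σ g = true ∨ σ g⁻¹ = true} := by
    intro g
    have : Continuous (fun σ : H → Bool => (σ g, σ g⁻¹)) :=
      (continuous_apply g).prodMk (continuous_apply g⁻¹)
    exact (isClosed_discrete {x : Bool × Bool | g ≠ 1 → x.1 = true ∨ x.2 = true}).preimage this
  have h3 : ∀ g h : H, IsClosed {σ : H → Bool | σ g = true → σ h = true → σ (g * h) = true} := by
    intro g h
    have : Continuous (fun σ : H → Bool => (σ g, σ h, σ (g * h))) :=
      (continuous_apply g).prodMk ((continuous_apply h).prodMk (continuous_apply (g * h)))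
    exact (isClosed_discrete {x : Bool × Bool × Bool |
      x.1 = true → x.2.1 = true → x.2.2 = true}).preimage this
  have : coneSet H = {σ : H → Bool | σ 1 = false} ∩
      ((⋂ g : H, {σ : H → Bool | g ≠ 1 → σ g = true ∨ σ g⁻¹ = true}) ∩
      ⋂ g : H, ⋂ h : H, {σ : H → Bool | σ g = true → σ h = true → σ (g * h) = true}) := by
    ext σ
    constructor
    · rintro ⟨a, b, c⟩
      refine ⟨a, ?_, ?_⟩
      · exact mem_iInter.mpr b
      · exact mem_iInter.mpr fun g => mem_iInter.mpr fun h => c g h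
    · rintro ⟨a, b, c⟩
      exact ⟨a, fun g => mem_iInter.mp b g, fun g h => mem_iInter.mp (mem_iInter.mp c g) h⟩
  rw [this]
  exact h1.inter ((isClosed_iInter h2).inter (isClosed_iInter fun g => isClosed_iInter (h3 g)))

theorem cj_mem_coneSet (a : H) {σ : H → Bool} (h : σ ∈ coneSet H) : cj a σ ∈ coneSet H := by
  obtain ⟨h1, h2, h3⟩ := h
  refine ⟨?_, ?_, ?_⟩
  · simp [cj, h1]
  · intro g hg
    have := h2 (a * g * a⁻¹) (by
      intro hcon
      apply hg
      have h4 : g = a⁻¹ * (a * g * a⁻¹) * a := by group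
      rw [h4, hcon]
      group)
    simp only [cj]
    have h5 : (a * g * a⁻¹)⁻¹ = a * g⁻¹ * a⁻¹ := by group
    rwa [h5] at this
  · intro g k hg hk
    simp only [cj] at *
    have := h3 _ _ hg hk
    have h5 : a * g * a⁻¹ * (a * k * a⁻¹) = a * (g * k) * a⁻¹ := by group
    rwa [h5] at this

/-- Closed nonempty invariant sets. -/
def InvSet (M : Set (H → Bool)) : Prop :=
  IsClosed M ∧ M.Nonempty ∧ ∀ a : H, ∀ σ ∈ M, cj a σ ∈ M

theorem exists_min (X : Set (H → Bool)) (hX : InvSet X) :
    ∃ M : Set (H → Bool), InvSet M ∧ M ⊆ X ∧ ∀ M', InvSet M' → M' ⊆ M → M ⊆ M' := by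
  obtain ⟨M, hMX, hM⟩ := zorn_superset_nonempty {M : Set (H → Bool) | InvSet M} (by
    intro c hc hchain hne
    refine ⟨⋂₀ c, ⟨?_, ?_, ?_⟩, fun s hs => sInter_subset_of_mem hs⟩
    · exact isClosed_sInter fun s hs => (hc hs).1
    · haveI := hne.to_subtype
      apply IsCompact.nonempty_sInter_of_directed_nonempty_isCompact_isClosed
      · intro s hs t ht
        rcases hchain.total hs ht with h | h
        · exact ⟨s, hs, subset_rfl, h⟩
        · exact ⟨t, ht, h, subset_rfl⟩
      · intro s hs
        exact (hc hs).2.1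
      · intro s hs
        exact (hc hs).1.isCompact
      · intro s hs
        exact (hc hs).1
    · intro a σ hσ s hs
      exact (hc hs).2.2 a σ (hσ s hs)) X hX
  refine ⟨M, hM.1, hMX, ?_⟩
  intro M' hM' hsub
  exact hM.2 hM' hsub

/-- Existence of a generic order. -/
theorem exists_generic [Countable H] (hX : (coneSet H).Nonempty) :
    ∃ σ ∈ coneSet H, ∀ g : H, (∃ x y : H, ∀ n : ℤ, σ (y * (x * g ^ n)⁻¹) = true) →
      ∃ A : Finset H, ∀ x : H, ∃ a ∈ A, ∃ y : H, ∀ n : ℤ,
        σ (y * (x * a * g ^ n)⁻¹) = true := by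
  obtain ⟨M, ⟨hMc, hMne, hMi⟩, hMX, hmin⟩ := exists_min (coneSet H)
    ⟨isClosed_coneSet, hX, fun a σ h => cj_mem_coneSet a h⟩
  haveI : CompactSpace M := isCompact_iff_compactSpace.mp hMc.isCompact
  haveI : Nonempty M := hMne.to_subtype
  let C : H → H → Set M := fun g s => {τ : M | ∀ n : ℤ, τ.1 (s * (g ^ n)⁻¹) = true}
  have hC : ∀ g s, IsClosed (C g s) := by
    intro g s
    have : C g s = ⋂ n : ℤ, {τ : M | τ.1 (s * (g ^ n)⁻¹) = true} := by
      ext τ
      simp [C]
    rw [this]
    apply isClosed_iInter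
    intro n
    exact isClosed_eq ((continuous_apply (s * (g ^ n)⁻¹)).comp continuous_subtype_val)
      continuous_const
  let act : H → M → M := fun a τ => ⟨cj a τ.1, hMi a τ.1 τ.2⟩
  have hact : ∀ a, Continuous (act a) := fun a =>
    ((continuous_cj a).comp continuous_subtype_val).subtype_mk _
  let hom : H → (M ≃ₜ M) := fun a =>
    { toFun := act a
      invFun := act a⁻¹
      left_inv := by
        intro τ
        apply Subtype.ext
        change cj a⁻¹ (cj a τ.1) = τ.1
        rw [cj_cj, mul_inv_cancel, cj_one]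
      right_inv := by
        intro τ
        apply Subtype.ext
        change cj a (cj a⁻¹ τ.1) = τ.1
        rw [cj_cj, inv_mul_cancel, cj_one]
      continuous_toFun := hact a
      continuous_invFun := hact a⁻¹ }
  classical
  let U : H × H × H → Set M := fun i =>
    if interior (C i.1 i.2.1) = ∅ then (act i.2.2) ⁻¹' (C i.1 i.2.1)ᶜ else univ
  have hUo : ∀ i, IsOpen (U i) := by
    intro i
    simp only [U]
    split_ifs
    · exact (hC _ _).isOpen_compl.preimage (hact _)
    · exact isOpen_univ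
  have hUd : ∀ i, Dense (U i) := by
    intro i
    simp only [U]
    split_ifs with h
    · have h1 : Dense (C i.1 i.2.1)ᶜ := interior_eq_empty_iff_dense_compl.mp h
      exact h1.preimage (hom i.2.2).isOpenMap
    · exact dense_univ
  obtain ⟨σ, hσ⟩ := (dense_iInter_of_isOpen hUo hUd).nonempty
  rw [mem_iInter] at hσ
  refine ⟨σ.1, hMX σ.2, ?_⟩
  rintro g ⟨x, y, hxy⟩
  have hint : (interior (C g (x⁻¹ * y))).Nonempty := by
    rw [nonempty_iff_ne_empty]
    intro hemp
    have h1 := hσ (g, x⁻¹ * y, x)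
    simp only [U] at h1
    rw [if_pos hemp] at h1
    apply h1
    intro n
    have h2 := hxy n
    change σ.1 (x * (x⁻¹ * y * (g ^ n)⁻¹) * x⁻¹) = true
    have h3 : x * (x⁻¹ * y * (g ^ n)⁻¹) * x⁻¹ = y * (x * g ^ n)⁻¹ := by group
    rw [h3]
    exact h2
  set s := x⁻¹ * y with hs
  set O := interior (C g s) with hO
  -- every orbit meets `O`
  have hcov : ∀ τ : M, ∃ a : H, act a τ ∈ O := by
    by_contra hcon
    push Not at hcon
    obtain ⟨τ, hτ⟩ := hcon
    let K : Set M := {τ | ∀ a : H, act a τ ∉ O}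
    have hKc : IsClosed K := by
      have : K = ⋂ a : H, (act a) ⁻¹' Oᶜ := by
        ext τ
        simp [K]
      rw [this]
      exact isClosed_iInter fun a => (isOpen_interior.isClosed_compl).preimage (hact a)
    have hK : InvSet ((fun τ : M => τ.1) '' K) := by
      refine ⟨?_, ⟨τ.1, τ, hτ, rfl⟩, ?_⟩
      · exact (hKc.isCompact.image continuous_subtype_val).isClosed
      · rintro a _ ⟨ρ, hρ, rfl⟩
        refine ⟨act a ρ, ?_, rfl⟩
        intro b hb
        apply hρ (a * b)
        have : act b (act a ρ) = act (a * b) ρ := by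
          apply Subtype.ext
          exact cj_cj a b ρ.1
        rwa [this] at hb
    have hsub := hmin _ hK (by
      rintro _ ⟨ρ, _, rfl⟩
      exact ρ.2)
    obtain ⟨ω, hω⟩ := hint
    obtain ⟨ρ, hρ, hρω⟩ := hsub ω.2
    have : ρ = ω := Subtype.ext hρω
    rw [this] at hρ
    apply hρ 1
    have h1 : act 1 ω = ω := Subtype.ext (cj_one ω.1)
    rw [h1]
    exact hω
  obtain ⟨A, hA⟩ := isCompact_univ.elim_finite_subcover (fun a : H => (act a) ⁻¹' O)
    (fun a => isOpen_interior.preimage (hact a)) (by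
      intro τ _
      obtain ⟨a, ha⟩ := hcov τ
      exact mem_iUnion.mpr ⟨a, ha⟩)
  refine ⟨A, ?_⟩
  intro z
  have h1 := hA (mem_univ (act z σ))
  simp only [mem_iUnion, exists_prop] at h1
  obtain ⟨a, haA, ha⟩ := h1
  refine ⟨a, haA, z * a * s, ?_⟩
  intro n
  have h2 : act a (act z σ) ∈ C g s := interior_subset ha
  have h3 := h2 n
  have h4 : (act a (act z σ)).1 = cj (z * a) σ.1 := cj_cj z a σ.1
  rw [h4] at h3
  change σ.1 (z * a * (s * (g ^ n)⁻¹) * (z * a)⁻¹) = true at h3
  have h5 : z * a * (s * (g ^ n)⁻¹) * (z * a)⁻¹ = z * a * s * (z * a * g ^ n)⁻¹ := by group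
  rwa [h5] at h3

end Pool.Agent.Lib.MP_bb0160_al
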