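import Mathlib
import Pool.Agent.Lib.MP_bb0160_al.H54Law
import Pool.Agent.Lib.MP_bb0160_al.H54Cuts
import Pool.Agent.Lib.MP_bb0160_al.H54Orders

set_option autoImplicit false
set_option linter.unusedSectionVars false

/-!
Every right-orderable group with a law is Conrad right-orderable.
-/

namespace Pool.Agent.Lib.MP_bb0160_al

open Set

/-- A countable finitely generated nontrivial right-orderable group with a law has a nontrivial
bi-orderable quotient. -/
theorem theoremA {H : Type*} [Group H] [Countable H] (lt : H → H → Prop)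
    (hirr : ∀ a, ¬ lt a a) (htr : ∀ a b c, lt a b → lt b c → lt a c)
    (htri : ∀ a b, lt a b ∨ a = b ∨ lt b a) (hmul : ∀ a b c, lt a b → lt (a * c) (b * c))
    (v : FreeGroup Bool) (hv : v ≠ 1) (hlaw : ∀ f : Bool → H, FreeGroup.lift f v = 1)
    (hnt : ∃ g : H, g ≠ 1) (S : Set H) (hS : S.Finite) (hcl : Subgroup.closure S = ⊤) :
    ∃ N P : Set H, BiQuot N P ∧ ∃ s ∈ S, s ∉ N := by
  classical
  have hne : (coneSet H).Nonempty := by
    refine ⟨fun g => decide (lt 1 g), ?_, ?_, ?_⟩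
    · simpa using hirr 1
    · intro g hg
      rcases htri 1 g with h | h | h
      · left; simpa using h
      · exact absurd h.symm hg
      · right
        have := hmul _ _ g⁻¹ h
        rw [mul_inv_cancel, one_mul] at this
        simpa using this
    · intro g h hg hh
      simp only [decide_eq_true_eq] at *
      have := hmul _ _ h hg
      rw [one_mul] at this
      exact htr _ _ _ hh this
  obtain ⟨σ, ⟨hσ1, hσ2, hσ3⟩, hgen⟩ := exists_generic hne
  let r : H → H → Prop := fun a b => σ (b * a⁻¹) = true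
  haveI : IsStrictTotalOrder H r :=
    { trichotomous := by
        intro a b hab hba
        by_contra hne
        have h1 : b * a⁻¹ ≠ 1 := by
          intro h
          exact hne (mul_inv_eq_one.mp h).symm
        rcases hσ2 _ h1 with h | h
        · exact hab h
        · apply hba
          have h2 : (b * a⁻¹)⁻¹ = a * b⁻¹ := by group
          rwa [h2] at h
      irrefl := by
        intro a h
        simp only [r, mul_inv_cancel, hσ1] at h
        exact Bool.false_ne_true h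
      trans := by
        intro a b c hab hbc
        have h := hσ3 _ _ hbc hab
        have h2 : c * b⁻¹ * (b * a⁻¹) = c * a⁻¹ := by group
        rwa [h2] at h }
  letI : LinearOrder H := linearOrderOfSTO r
  have hlt : ∀ a b : H, a < b ↔ σ (b * a⁻¹) = true := fun a b => Iff.rfl
  have hmul' : ∀ a b c : H, a < b → a * c < b * c := by
    intro a b c h
    rw [hlt] at *
    have h2 : b * c * (a * c)⁻¹ = b * a⁻¹ := by group
    rwa [h2]
  obtain ⟨g0, hg0⟩ := hnt
  have hpos : ∃ p : H, 1 < p := by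
    rcases lt_trichotomy g0 1 with h | h | h
    · refine ⟨g0⁻¹, ?_⟩
      have := hmul' _ _ g0⁻¹ h
      rwa [mul_inv_cancel, one_mul] at this
    · exact absurd h hg0
    · exact ⟨g0, h⟩
  obtain ⟨q, hq⟩ := hpos
  have hR : ∀ g : H, OrbBdd g → ∀ z : H, ∃ x y : H, z < x ∧ ∀ n : ℤ, x * g ^ n < y := by
    rintro g ⟨x, y, hxy⟩ z
    obtain ⟨A, hA⟩ := hgen g ⟨x, y, fun n => (hlt _ _).mp (hxy n)⟩
    obtain ⟨M, hM⟩ := (A.image (fun a => z * a⁻¹)).exists_le
    obtain ⟨a, ha, y', hy'⟩ := hA (q * M)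
    refine ⟨q * M * a, y', ?_, fun n => (hlt _ _).mpr (hy' n)⟩
    have h1 : z * a⁻¹ ≤ M := hM _ (Finset.mem_image.mpr ⟨a, ha, rfl⟩)
    have h2 : M < q * M := by
      have := hmul' _ _ M hq
      rwa [one_mul] at this
    have h3 := hmul' _ _ a (lt_of_le_of_lt h1 h2)
    rwa [inv_mul_cancel_right] at h3
  obtain ⟨h1, s, hs, hs'⟩ := biQuot_of hmul' v hv hlaw hR ⟨1, q, hq⟩ S hS hcl
  exact ⟨_, _, h1, s, hs, hs'⟩

/-- The same for subgroups generated by finitely many elements. -/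
theorem theoremA_sub {G : Type*} [Group G] (lt : G → G → Prop)
    (hirr : ∀ a, ¬ lt a a) (htr : ∀ a b c, lt a b → lt b c → lt a c)
    (htri : ∀ a b, lt a b ∨ a = b ∨ lt b a) (hmul : ∀ a b c, lt a b → lt (a * c) (b * c))
    (v : FreeGroup Bool) (hv : v ≠ 1) (hlaw : ∀ f : Bool → G, FreeGroup.lift f v = 1)
    (E : Finset G) (hE : ∃ g ∈ E, g ≠ 1) :
    ∃ N P : Set G, (∀ g, g ∈ N → g ∉ P) ∧ (1 : G) ∈ N ∧
      (∀ g ∈ E, g ∈ N ∨ g ∈ P ∨ g⁻¹ ∈ P) ∧
      (∀ g h, g ∈ P → h ∈ P → g * h ∈ P) ∧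
      (∀ g h, g ∈ N → h ∈ N → g * h ∈ N) ∧
      (∀ g, g ∈ N → g⁻¹ ∈ N) ∧
      (∀ g h, g ∈ P → h ∈ N → g * h ∈ P) ∧
      (∀ g h, g ∈ N → h ∈ P → g * h ∈ P) ∧
      (∀ a g, (a ∈ N ∨ a ∈ P) → g ∈ P → a * g * a⁻¹ ∈ P) ∧
      (∀ a g, (a ∈ N ∨ a ∈ P) → g ∈ N → a * g * a⁻¹ ∈ N) ∧
      ∃ s ∈ E, s ∉ N := by
  set K : Subgroup G := Subgroup.closure (E : Set G) with hK
  have hEK : ∀ g ∈ E, g ∈ K := fun g hg => Subgroup.subset_closure hg
  haveI : Countable K := by
    have h1 : K = (FreeGroup.lift (fun x : (E : Set G) => (x : G))).range :=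
      FreeGroup.closure_eq_range _
    rw [h1]
    haveI : Countable (FreeGroup (E : Set G)) := inferInstance
    exact (MonoidHom.rangeRestrict_surjective _).countable
  let S : Set K := ((↑) : K → G) ⁻¹' (E : Set G)
  have hS : S.Finite := E.finite_toSet.preimage Subtype.val_injective.injOn
  have hcl : Subgroup.closure S = ⊤ := by
    have := Subgroup.closure_closure_coe_preimage (k := (E : Set G))
    exact this
  obtain ⟨g0, hg0, hg01⟩ := hE
  obtain ⟨N, P, hNP, s, hs, hsN⟩ := theoremA (H := K) (fun a b => lt a b)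
    (fun a => hirr a) (fun a b c => htr a b c)
    (fun a b => by
      rcases htri a b with h | h | h
      · exact Or.inl h
      · exact Or.inr (Or.inl (Subtype.ext h))
      · exact Or.inr (Or.inr h))
    (fun a b c => hmul a b c) v hv
    (fun f => by
      have h1 : K.subtype.comp (FreeGroup.lift f) = FreeGroup.lift (fun c => (f c : G)) := by
        apply FreeGroup.ext_hom
        intro c
        simp only [MonoidHom.comp_apply, FreeGroup.lift_apply_of]
        rfl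
      have h2 := DFunLike.congr_fun h1 v
      rw [hlaw, MonoidHom.comp_apply] at h2
      exact Subtype.ext h2)
    ⟨⟨g0, hEK g0 hg0⟩, fun h => hg01 (congrArg Subtype.val h)⟩ S hS hcl
  refine ⟨((↑) : K → G) '' N, ((↑) : K → G) '' P, ?_, ?_, ?_, ?_, ?_, ?_, ?_, ?_, ?_, ?_, ?_⟩
  · rintro _ ⟨a, ha, rfl⟩ ⟨b, hb, hab⟩
    have : b = a := Subtype.ext hab
    rw [this] at hb
    exact hNP.disj a ha hb
  · exact ⟨1, hNP.one_mem, rfl⟩
  · intro g hg
    rcases hNP.total ⟨g, hEK g hg⟩ with h | h | h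
    · exact Or.inl ⟨_, h, rfl⟩
    · exact Or.inr (Or.inl ⟨_, h, rfl⟩)
    · exact Or.inr (Or.inr ⟨_, h, rfl⟩)
  · rintro _ _ ⟨a, ha, rfl⟩ ⟨b, hb, rfl⟩
    exact ⟨_, hNP.mulP a b ha hb, rfl⟩
  · rintro _ _ ⟨a, ha, rfl⟩ ⟨b, hb, rfl⟩
    exact ⟨_, hNP.mulN a b ha hb, rfl⟩
  · rintro _ ⟨a, ha, rfl⟩
    exact ⟨_, hNP.invN a ha, rfl⟩
  · rintro _ _ ⟨a, ha, rfl⟩ ⟨b, hb, rfl⟩
    exact ⟨_, hNP.mulPN a b ha hb, rfl⟩
  · rintro _ _ ⟨a, ha, rfl⟩ ⟨b, hb, rfl⟩
    exact ⟨_, hNP.mulNP a b ha hb, rfl⟩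
  · rintro _ _ (⟨a, ha, rfl⟩ | ⟨a, ha, rfl⟩) ⟨b, hb, rfl⟩
    · exact ⟨_, hNP.conjP a b hb, rfl⟩
    · exact ⟨_, hNP.conjP a b hb, rfl⟩
  · rintro _ _ (⟨a, ha, rfl⟩ | ⟨a, ha, rfl⟩) ⟨b, hb, rfl⟩
    · exact ⟨_, hNP.conjN a b hb, rfl⟩
    · exact ⟨_, hNP.conjN a b hb, rfl⟩
  · refine ⟨s, hs, ?_⟩
    rintro ⟨b, hb, hbs⟩
    have : b = s := Subtype.ext hbs
    rw [this] at hb
    exact hsN hb

/-- Finite approximation of a Conrad cone. -/
theorem finite_cone {G : Type*} [Group G] (lt : G → G → Prop)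
    (hirr : ∀ a, ¬ lt a a) (htr : ∀ a b c, lt a b → lt b c → lt a c)
    (htri : ∀ a b, lt a b ∨ a = b ∨ lt b a) (hmul : ∀ a b c, lt a b → lt (a * c) (b * c))
    (v : FreeGroup Bool) (hv : v ≠ 1) (hlaw : ∀ f : Bool → G, FreeGroup.lift f v = 1) :
    ∀ (n : ℕ) (E : Finset G), E.card ≤ n → ∃ T : Set G, (1 : G) ∉ T ∧
      (∀ g h, g ∈ T → h ∈ T → g * h ∈ T) ∧
      (∀ f g, f ∈ T → g ∈ T → f ^ 2 * g * f⁻¹ ∈ T) ∧
      ∀ g ∈ E, g ≠ 1 → g ∈ T ∨ g⁻¹ ∈ T := by
  classical
  intro n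
  induction n with
  | zero =>
    intro E hE
    have : E = ∅ := Finset.card_eq_zero.mp (Nat.le_zero.mp hE)
    subst this
    exact ⟨∅, by simp, by simp, by simp, by simp⟩
  | succ n ih =>
    intro E hE
    by_cases hE1 : ∃ g ∈ E, g ≠ 1
    · obtain ⟨N, P, hdisj, hone, htot, hPP, hNN, hNi, hPN, hNP, hcP, hcN, s, hs, hsN⟩ :=
        theoremA_sub lt hirr htr htri hmul v hv hlaw E hE1
      obtain ⟨T', hT1, hT2, hT3, hT4⟩ := ih (E.filter (fun g => g ∈ N)) (by
        have hlt : (E.filter (fun g => g ∈ N)).card < E.card := by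
          apply Finset.card_lt_card
          rw [Finset.filter_ssubset]
          exact ⟨s, hs, hsN⟩
        omega)
      refine ⟨P ∪ (T' ∩ N), ?_, ?_, ?_, ?_⟩
      · rintro (h | h)
        · exact hdisj 1 hone h
        · exact hT1 h.1
      · rintro g h (hg | ⟨hg, hg'⟩) (hh | ⟨hh, hh'⟩)
        · exact Or.inl (hPP _ _ hg hh)
        · exact Or.inl (hPN _ _ hg hh')
        · exact Or.inl (hNP _ _ hg' hh)
        · exact Or.inr ⟨hT2 _ _ hg hh, hNN _ _ hg' hh'⟩
      · intro f g hf hg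
        have hrw : f ^ 2 * g * f⁻¹ = f * (f * g * f⁻¹) := by
          rw [pow_two]
          simp only [mul_assoc]
        rcases hf with hf | ⟨hf, hf'⟩ <;> rcases hg with hg | ⟨hg, hg'⟩
        · left
          rw [hrw]
          exact hPP _ _ hf (hcP _ _ (Or.inr hf) hg)
        · left
          rw [hrw]
          exact hPN _ _ hf (hcN _ _ (Or.inr hf) hg')
        · left
          rw [hrw]
          exact hNP _ _ hf' (hcP _ _ (Or.inl hf') hg)
        · right
          refine ⟨hT3 _ _ hf hg, ?_⟩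
          rw [hrw]
          exact hNN _ _ hf' (hcN _ _ (Or.inl hf') hg')
      · intro g hg hg1
        rcases htot g hg with h | h | h
        · rcases hT4 g (Finset.mem_filter.mpr ⟨hg, h⟩) hg1 with h' | h'
          · exact Or.inl (Or.inr ⟨h', h⟩)
          · exact Or.inr (Or.inr ⟨h', hNi _ h⟩)
        · exact Or.inl (Or.inl h)
        · exact Or.inr (Or.inl h)
    · push Not at hE1
      exact ⟨∅, by simp, by simp, by simp, fun g hg hg1 => absurd (hE1 g hg) hg1⟩

/-- Every right-orderable group with a law in two variables has a Conrad right order. -/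
theorem conrad_of_law {G : Type*} [Group G] (lt : G → G → Prop)
    (hirr : ∀ a, ¬ lt a a) (htr : ∀ a b c, lt a b → lt b c → lt a c)
    (htri : ∀ a b, lt a b ∨ a = b ∨ lt b a) (hmul : ∀ a b c, lt a b → lt (a * c) (b * c))
    (v : FreeGroup Bool) (hv : v ≠ 1) (hlaw : ∀ f : Bool → G, FreeGroup.lift f v = 1) :
    ∃ lt : G → G → Prop,
        (∀ a, ¬ lt a a) ∧
        (∀ a b c, lt a b → lt b c → lt a c) ∧
        (∀ a b, lt a b ∨ a = b ∨ lt b a) ∧
        (∀ a b c, lt a b → lt (a * c) (b * c)) ∧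
        (∀ f g, lt 1 f → lt 1 g → ∃ n : ℕ, lt f (f ^ (n + 1) * g)) := by
  classical
  have hfin := fun E : Finset G =>
    finite_cone lt hirr htr htri hmul v hv hlaw E.card E le_rfl
  choose T hT1 hT2 hT3 hT4 using hfin
  obtain ⟨U, hU⟩ := Ultrafilter.exists_le (Filter.atTop : Filter (Finset G))
  let P : Set G := {g | ∀ᶠ E in (U : Filter (Finset G)), g ∈ T E}
  have hP1 : (1 : G) ∉ P := by
    intro h
    obtain ⟨E, hE⟩ := (show ∀ᶠ E in (U : Filter (Finset G)), (1 : G) ∈ T E from h).exists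
    exact hT1 E hE
  have hP2 : ∀ g h, g ∈ P → h ∈ P → g * h ∈ P := by
    intro g h hg hh
    filter_upwards [hg, hh] with E h1 h2
    exact hT2 E g h h1 h2
  have hP3 : ∀ f g, f ∈ P → g ∈ P → f ^ 2 * g * f⁻¹ ∈ P := by
    intro g h hg hh
    filter_upwards [hg, hh] with E h1 h2
    exact hT3 E g h h1 h2
  have hP4 : ∀ g, g ≠ 1 → g ∈ P ∨ g⁻¹ ∈ P := by
    intro g hg
    have h1 : ∀ᶠ E in (U : Filter (Finset G)), g ∈ T E ∨ g⁻¹ ∈ T E := by
      have h2 : ∀ᶠ E in (Filter.atTop : Filter (Finset G)), {g} ⊆ E :=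
        Filter.eventually_ge_atTop ({g} : Finset G)
      filter_upwards [hU h2] with E hE
      exact hT4 E g (hE (Finset.mem_singleton_self g)) hg
    exact Ultrafilter.eventually_or.mp h1
  refine ⟨fun a b => b * a⁻¹ ∈ P, ?_, ?_, ?_, ?_, ?_⟩
  · intro a
    change ¬ (a * a⁻¹ ∈ P)
    rw [mul_inv_cancel]
    exact hP1
  · intro a b c hab hbc
    have := hP2 _ _ hbc hab
    have h2 : c * b⁻¹ * (b * a⁻¹) = c * a⁻¹ := by group
    rw [h2] at this
    exact this
  · intro a b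
    by_cases hab : b * a⁻¹ = 1
    · exact Or.inr (Or.inl (mul_inv_eq_one.mp hab).symm)
    · rcases hP4 _ hab with h | h
      · exact Or.inl h
      · right; right
        have h2 : (b * a⁻¹)⁻¹ = a * b⁻¹ := by group
        rw [h2] at h
        exact h
  · intro a b c hab
    have h2 : b * c * (a * c)⁻¹ = b * a⁻¹ := by group
    change b * c * (a * c)⁻¹ ∈ P
    rw [h2]
    exact hab
  · intro f g hf hg
    refine ⟨1, ?_⟩
    have hf' : f ∈ P := by simpa using hf
    have hg' : g ∈ P := by simpa using hg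
    change f ^ (1 + 1) * g * f⁻¹ ∈ P
    exact hP3 f g hf' hg'

end Pool.Agent.Lib.MP_bb0160_al
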