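import Mathlib
import Pool.Agent.Lib.MP_bb0160_al.H54Main

set_option autoImplicit false
set_option linter.unusedSectionVars false

/-!
A finitely generated group with a nontrivial bi-orderable quotient has a surjection onto the
integers (Hölder).
-/

namespace Pool.Agent.Lib.MP_bb0160_al

open Set Filter Topology

section Hol

variable {Q : Type*} [Group Q] [LinearOrder Q] [MulLeftMono Q] [MulRightMono Q]

theorem hol_zpow_lt {q : Q} (hq : 1 < q) {m n : ℤ} (h : m < n) : q ^ m < q ^ n := by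
  obtain ⟨k, hk⟩ : ∃ k : ℕ, n = m + (k + 1 : ℕ) := ⟨(n - m - 1).toNat, by omega⟩
  rw [hk, zpow_add, zpow_natCast]
  have h1 : 1 < q ^ (k + 1) := one_lt_pow' hq (Nat.succ_ne_zero k)
  have h2 : q ^ m * 1 < q ^ m * q ^ (k + 1) := mul_lt_mul_right h1 _
  rwa [mul_one] at h2

theorem hol_zpow_le {q : Q} (hq : 1 < q) {m n : ℤ} (h : m ≤ n) : q ^ m ≤ q ^ n := by
  rcases h.lt_or_eq with h | h
  · exact (hol_zpow_lt hq h).le
  · rw [h]

theorem hol_lt_of_zpow {q : Q} (hq : 1 < q) {m n : ℤ} (h : q ^ m < q ^ n) : m < n := by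
  by_contra hc
  exact absurd h (not_lt.2 (hol_zpow_le hq (not_lt.1 hc)))

/-- `q` dominates every element. -/
def Dom (q : Q) : Prop := ∀ x : Q, ∃ n : ℕ, x ≤ q ^ n ∧ x⁻¹ ≤ q ^ n

theorem hol_floor {q : Q} (hq : 1 < q) (hd : Dom q) (x : Q) :
    ∃ m : ℤ, q ^ m ≤ x ∧ x < q ^ (m + 1) := by
  obtain ⟨n, hn1, hn2⟩ := hd x
  have hinh : ∃ z : ℤ, q ^ z ≤ x := by
    refine ⟨-(n : ℤ), ?_⟩
    rw [zpow_neg, zpow_natCast]
    refine inv_le_inv_iff.1 ?_
    rwa [inv_inv]
  obtain ⟨m, hm1, hm2⟩ := Int.exists_greatest_of_bdd (P := fun z : ℤ => q ^ z ≤ x)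
    ⟨n, fun z hz => by
      by_contra hc
      have h1 := hol_zpow_lt hq (not_le.1 hc)
      rw [zpow_natCast] at h1
      exact absurd (hz.trans hn1) (not_le.2 h1)⟩ hinh
  refine ⟨m, hm1, ?_⟩
  by_contra hc
  have := hm2 (m + 1) (not_lt.1 hc)
  omega

theorem hol_pow_mul {x y : Q} (h : x * y ≤ y * x) (n : ℕ) :
    x ^ n * y ^ n ≤ (x * y) ^ n ∧ (x * y) ^ n ≤ y ^ n * x ^ n := by
  induction n with
  | zero => simp
  | succ n ih =>
    obtain ⟨h1, h2⟩ := ih
    have hyx : (x * y) ^ n ≤ (y * x) ^ n := pow_le_pow_left' h n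
    constructor
    · have e1 : x ^ (n + 1) * y ^ (n + 1) = x * (x ^ n * y ^ n) * y := by
        rw [pow_succ', pow_succ]; simp only [mul_assoc]
      have e2 : (x * y) ^ (n + 1) = x * (y * x) ^ n * y := by
        rw [pow_succ, ← mul_assoc, mul_pow_mul]
      rw [e1, e2]
      exact mul_le_mul' (mul_le_mul' le_rfl (h1.trans hyx)) le_rfl
    · have e1 : y ^ (n + 1) * x ^ (n + 1) = y * (y ^ n * x ^ n) * x := by
        rw [pow_succ', pow_succ]; simp only [mul_assoc]
      have e2 : (y * x) ^ (n + 1) = y * (x * y) ^ n * x := by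
        rw [pow_succ, ← mul_assoc, mul_pow_mul]
      calc (x * y) ^ (n + 1) ≤ (y * x) ^ (n + 1) := pow_le_pow_left' h _
        _ = y * (x * y) ^ n * x := e2
        _ ≤ y * (y ^ n * x ^ n) * x := mul_le_mul' (mul_le_mul' le_rfl h2) le_rfl
        _ = y ^ (n + 1) * x ^ (n + 1) := e1.symm

/-- Hölder: a bi-ordered group dominated by one element has a nonzero homomorphism to the
reals. -/
theorem hol_hom {q : Q} (hq : 1 < q) (hd : Dom q) :
    ∃ φ : Q → ℝ, (∀ x y, φ (x * y) = φ x + φ y) ∧ φ q = 1 := by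
  choose fl hfl1 hfl2 using hol_floor hq hd
  have hmono : ∀ x y, x ≤ y → fl x ≤ fl y := by
    intro x y hxy
    have := hol_lt_of_zpow hq ((hfl1 x).trans_lt (hxy.trans_lt (hfl2 y)))
    omega
  have hsup : ∀ x y, fl x + fl y ≤ fl (x * y) := by
    intro x y
    have h1 : q ^ (fl x + fl y) ≤ x * y := by
      rw [zpow_add]; exact mul_le_mul' (hfl1 x) (hfl1 y)
    have := hol_lt_of_zpow hq (h1.trans_lt (hfl2 (x * y)))
    omega
  have hsub : ∀ x y, fl (x * y) ≤ fl x + fl y + 1 := by
    intro x y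
    have h1 : x * y ≤ q ^ ((fl x + 1) + (fl y + 1)) := by
      rw [zpow_add]; exact mul_le_mul' (hfl2 x).le (hfl2 y).le
    have h2 : x * y < q ^ ((fl x + 1) + (fl y + 1)) := by
      refine lt_of_le_of_lt (mul_le_mul' (hfl2 x).le le_rfl) ?_
      rw [zpow_add q (fl x + 1) (fl y + 1)]
      exact mul_lt_mul_right (hfl2 y) _
    have := hol_lt_of_zpow hq ((hfl1 (x * y)).trans_lt h2)
    omega
  have hflq : ∀ m : ℤ, fl (q ^ m) = m := by
    intro m
    have h1 := hol_lt_of_zpow hq (hfl2 (q ^ m))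
    have h2 : fl (q ^ m) ≤ m := by
      by_contra hc
      exact absurd (hfl1 (q ^ m)) (not_le.2 (hol_zpow_lt hq (not_le.1 hc)))
    omega
  have hpow1 : ∀ x (n : ℕ), (n : ℤ) * fl x ≤ fl (x ^ n) := by
    intro x n
    induction n with
    | zero =>
      have := hflq 0
      rw [zpow_zero] at this
      simp [this]
    | succ n ih =>
      have := hsup (x ^ n) x
      rw [← pow_succ] at this
      push_cast
      linarith
  have hpow2 : ∀ x (n : ℕ), fl (x ^ n) ≤ (n : ℤ) * (fl x + 1) := by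
    intro x n
    induction n with
    | zero =>
      have := hflq 0
      rw [zpow_zero] at this
      simp [this]
    | succ n ih =>
      have := hsub (x ^ n) x
      rw [← pow_succ] at this
      push_cast
      linarith
  -- the limit
  have hlim : ∀ x, ∃ l : ℝ, Tendsto (fun n : ℕ => ((fl (x ^ n) : ℤ) : ℝ) / n) atTop (𝓝 l) := by
    intro x
    have hs : Subadditive (fun n : ℕ => -((fl (x ^ n) : ℤ) : ℝ)) := by
      intro m n
      have := hsup (x ^ m) (x ^ n)
      rw [← pow_add] at this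
      have h2 : ((fl (x ^ m) : ℤ) : ℝ) + ((fl (x ^ n) : ℤ) : ℝ) ≤ ((fl (x ^ (m + n)) : ℤ) : ℝ) := by
        exact_mod_cast this
      simp only
      linarith
    have hb : BddBelow (range fun n : ℕ => -((fl (x ^ n) : ℤ) : ℝ) / n) := by
      refine ⟨-(|((fl x : ℤ) : ℝ)| + 1), ?_⟩
      rintro _ ⟨n, rfl⟩
      simp only
      rcases Nat.eq_zero_or_pos n with hn | hn
      · rw [hn]
        simp only [CharP.cast_eq_zero, div_zero]
        have := abs_nonneg ((fl x : ℤ) : ℝ)
        linarith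
      · have hn' : (0 : ℝ) < n := by exact_mod_cast hn
        rw [le_div_iff₀ hn']
        have h2 : ((fl (x ^ n) : ℤ) : ℝ) ≤ (n : ℝ) * ((fl x : ℤ) + 1) := by
          exact_mod_cast hpow2 x n
        have h3 := le_abs_self ((fl x : ℤ) : ℝ)
        nlinarith
    refine ⟨-hs.lim, ?_⟩
    have h := (hs.tendsto_lim hb).neg
    refine h.congr fun n => ?_
    ring
  choose φ hφ using hlim
  refine ⟨φ, ?_, ?_⟩
  · intro x y
    have hdiff : ∀ n : ℕ, |((fl ((x * y) ^ n) : ℤ) : ℝ) - (((fl (x ^ n) : ℤ) : ℝ) +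
        ((fl (y ^ n) : ℤ) : ℝ))| ≤ 1 := by
      intro n
      have key : fl (x ^ n) + fl (y ^ n) ≤ fl ((x * y) ^ n) ∧
          fl ((x * y) ^ n) ≤ fl (x ^ n) + fl (y ^ n) + 1 := by
        rcases le_total (x * y) (y * x) with h | h
        · obtain ⟨h1, h2⟩ := hol_pow_mul h n
          have a1 := hmono _ _ h1
          have a2 := hmono _ _ h2
          have a3 := hsup (x ^ n) (y ^ n)
          have a4 := hsub (y ^ n) (x ^ n)
          omega
        · -- now `y x ≤ x y`
          have hxy : ∀ n : ℕ, y ^ n * x ^ n ≤ (x * y) ^ n ∧ (x * y) ^ n ≤ x ^ n * y ^ n := by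
            intro n
            obtain ⟨h1, h2⟩ := hol_pow_mul h n
            cases n with
            | zero => simp
            | succ n =>
              obtain ⟨h3, h4⟩ := hol_pow_mul h n
              constructor
              · exact h1.trans (pow_le_pow_left' h _)
              · have e1 : x ^ (n + 1) * y ^ (n + 1) = x * (x ^ n * y ^ n) * y := by
                  rw [pow_succ', pow_succ]; simp only [mul_assoc]
                have e2 : (x * y) ^ (n + 1) = x * (y * x) ^ n * y := by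
                  rw [pow_succ, ← mul_assoc, mul_pow_mul]
                rw [e1, e2]
                exact mul_le_mul' (mul_le_mul' le_rfl h4) le_rfl
          obtain ⟨h1, h2⟩ := hxy n
          have a1 := hmono _ _ h1
          have a2 := hmono _ _ h2
          have a3 := hsup (y ^ n) (x ^ n)
          have a4 := hsub (x ^ n) (y ^ n)
          omega
      have k1 : ((fl (x ^ n) : ℤ) : ℝ) + ((fl (y ^ n) : ℤ) : ℝ) ≤ ((fl ((x * y) ^ n) : ℤ) : ℝ) := by
        exact_mod_cast key.1
      have k2 : ((fl ((x * y) ^ n) : ℤ) : ℝ) ≤ ((fl (x ^ n) : ℤ) : ℝ) + ((fl (y ^ n) : ℤ) : ℝ) + 1 := by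
        exact_mod_cast key.2
      rw [abs_le]
      constructor <;> linarith
    have h1 : Tendsto (fun n : ℕ => ((fl ((x * y) ^ n) : ℤ) : ℝ) / n -
        (((fl (x ^ n) : ℤ) : ℝ) / n + ((fl (y ^ n) : ℤ) : ℝ) / n)) atTop
        (𝓝 (φ (x * y) - (φ x + φ y))) := (hφ (x * y)).sub ((hφ x).add (hφ y))
    have h2 : Tendsto (fun n : ℕ => ((fl ((x * y) ^ n) : ℤ) : ℝ) / n -
        (((fl (x ^ n) : ℤ) : ℝ) / n + ((fl (y ^ n) : ℤ) : ℝ) / n)) atTop (𝓝 0) := by
      rw [tendsto_zero_iff_abs_tendsto_zero]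
      refine squeeze_zero (fun n => abs_nonneg _) (fun n => ?_)
        (tendsto_one_div_atTop_nhds_zero_nat)
      simp only [Function.comp_apply]
      have e : ((fl ((x * y) ^ n) : ℤ) : ℝ) / n -
          (((fl (x ^ n) : ℤ) : ℝ) / n + ((fl (y ^ n) : ℤ) : ℝ) / n) =
          (((fl ((x * y) ^ n) : ℤ) : ℝ) - (((fl (x ^ n) : ℤ) : ℝ) +
          ((fl (y ^ n) : ℤ) : ℝ))) / n := by ring
      rw [e, abs_div, Nat.abs_cast]
      exact div_le_div_of_nonneg_right (hdiff n) (Nat.cast_nonneg n)
    have h3 := tendsto_nhds_unique h1 h2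
    linarith
  · have h1 : Tendsto (fun n : ℕ => ((fl (q ^ n) : ℤ) : ℝ) / n) atTop (𝓝 1) := by
      refine tendsto_const_nhds.congr' ?_
      filter_upwards [eventually_gt_atTop 0] with n hn
      have := hflq n
      rw [zpow_natCast] at this
      rw [this]
      have hn' : (n : ℝ) ≠ 0 := by exact_mod_cast hn.ne'
      push_cast
      field_simp
    exact tendsto_nhds_unique (hφ q) h1

end Hol

/-- A finitely generated group with a nonzero homomorphism to the reals has a surjection onto the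
integers. -/
theorem surj_of_real {H : Type*} [Group H] [Group.FG H] (φ : H → ℝ)
    (hφ : ∀ x y, φ (x * y) = φ x + φ y) (h0 : ∃ x, φ x ≠ 0) :
    ∃ ψ : H →* Multiplicative ℤ, Function.Surjective ψ := by
  let f : Additive H →+ ℝ :=
    { toFun := fun x => φ x.toMul
      map_zero' := by
        have := hφ 1 1
        rw [mul_one] at this
        change φ 1 = 0
        linarith
      map_add' := fun x y => hφ _ _ }
  let A : AddSubgroup ℝ := f.range
  have : AddGroup.FG (Additive H) := inferInstance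
  have : AddGroup.FG A := AddGroup.fg_of_surjective f.rangeRestrict_surjective
  have : Module.Finite ℤ A := Module.Finite.iff_addGroup_fg.2 inferInstance
  have : Module.Free ℤ A := inferInstance
  have : Nontrivial A := by
    obtain ⟨x, hx⟩ := h0
    refine ⟨⟨⟨f (Additive.ofMul x), ⟨_, rfl⟩⟩, 0, ?_⟩⟩
    intro h
    exact hx (congrArg Subtype.val h)
  let b := Module.Free.chooseBasis ℤ A
  have : Nonempty (Module.Free.ChooseBasisIndex ℤ A) := b.index_nonempty
  obtain ⟨i⟩ := (inferInstance : Nonempty (Module.Free.ChooseBasisIndex ℤ A))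
  let g : Additive H →+ ℤ := (b.coord i).toAddMonoidHom.comp f.rangeRestrict
  refine ⟨AddMonoidHom.toMultiplicativeRight g, ?_⟩
  intro n
  obtain ⟨y, hy⟩ := f.rangeRestrict_surjective ((Multiplicative.toAdd n) • b i)
  refine ⟨y.toMul, ?_⟩
  change Multiplicative.ofAdd (g y) = n
  have : g y = Multiplicative.toAdd n := by
    change b.coord i (f.rangeRestrict y) = _
    rw [hy, map_smul, Module.Basis.coord_apply, Module.Basis.repr_self, Finsupp.single_eq_same]
    simp
  rw [this]
  rfl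

/-- A finitely generated group with a nontrivial bi-orderable quotient has a surjection onto the
integers. -/
theorem surj_of_biQuot {H : Type*} [Group H] {N P : Set H} (h : BiQuot N P) (S : Set H)
    (hS : S.Finite) (hcl : Subgroup.closure S = ⊤) (hs : ∃ s ∈ S, s ∉ N) :
    ∃ ψ : H →* Multiplicative ℤ, Function.Surjective ψ := by
  classical
  let Ns : Subgroup H :=
    { carrier := N
      mul_mem' := fun ha hb => h.mulN _ _ ha hb
      one_mem' := h.one_mem
      inv_mem' := fun ha => h.invN _ ha }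
  have hNs : ∀ x, x ∈ Ns ↔ x ∈ N := fun x => Iff.rfl
  have : Ns.Normal := ⟨fun n hn g => h.conjN g n hn⟩
  let π : H →* H ⧸ Ns := QuotientGroup.mk' Ns
  have hπs : Function.Surjective π := QuotientGroup.mk'_surjective Ns
  have hπ1 : ∀ x, π x = 1 ↔ x ∈ N := fun x => QuotientGroup.eq_one_iff x
  let pos : H ⧸ Ns → Prop := fun a => ∃ p ∈ P, π p = a
  have hpos : ∀ x : H, pos (π x) ↔ x ∈ P := by
    intro x
    constructor
    · rintro ⟨p, hp, hpx⟩
      have h1 : p⁻¹ * x ∈ N := by
        rw [← hπ1, map_mul, map_inv, hpx, inv_mul_cancel]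
      have := h.mulPN _ _ hp h1
      rwa [mul_inv_cancel_left] at this
    · intro hx
      exact ⟨x, hx, rfl⟩
  have hnotpos1 : ¬ pos 1 := by
    rw [← map_one π, hpos]
    exact h.disj 1 h.one_mem
  have hposmul : ∀ a b, pos a → pos b → pos (a * b) := by
    rintro _ _ ⟨p, hp, rfl⟩ ⟨p', hp', rfl⟩
    exact ⟨p * p', h.mulP _ _ hp hp', map_mul _ _ _⟩
  have hposconj : ∀ a b, pos b → pos (a * b * a⁻¹) := by
    rintro a _ ⟨p, hp, rfl⟩
    obtain ⟨x, rfl⟩ := hπs a
    exact ⟨x * p * x⁻¹, h.conjP _ _ hp, by simp⟩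
  have hpostot : ∀ a, a = 1 ∨ pos a ∨ pos a⁻¹ := by
    intro a
    obtain ⟨x, rfl⟩ := hπs a
    rcases h.total x with hx | hx | hx
    · exact Or.inl ((hπ1 x).2 hx)
    · exact Or.inr (Or.inl ⟨x, hx, rfl⟩)
    · exact Or.inr (Or.inr ⟨x⁻¹, hx, map_inv _ _⟩)
  let r : H ⧸ Ns → H ⧸ Ns → Prop := fun a b => pos (b * a⁻¹)
  have : IsStrictTotalOrder (H ⧸ Ns) r :=
    { trichotomous := by
        intro a b hab hba
        by_contra hne
        rcases hpostot (b * a⁻¹) with h1 | h1 | h1
        · exact hne (mul_inv_eq_one.mp h1).symm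
        · exact hab h1
        · apply hba
          have h2 : (b * a⁻¹)⁻¹ = a * b⁻¹ := by group
          rwa [h2] at h1
      irrefl := by
        intro a ha
        simp only [r, mul_inv_cancel] at ha
        exact hnotpos1 ha
      trans := by
        intro a b c hab hbc
        have h1 := hposmul _ _ hbc hab
        have h2 : c * b⁻¹ * (b * a⁻¹) = c * a⁻¹ := by group
        rwa [h2] at h1 }
  let _ : LinearOrder (H ⧸ Ns) := linearOrderOfSTO r
  have hlt : ∀ a b : H ⧸ Ns, a < b ↔ pos (b * a⁻¹) := fun a b => Iff.rfl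
  have hr : ∀ a b c : H ⧸ Ns, a < b → a * c < b * c := by
    intro a b c hab
    rw [hlt] at *
    have h2 : b * c * (a * c)⁻¹ = b * a⁻¹ := by group
    rwa [h2]
  have hl : ∀ a b c : H ⧸ Ns, a < b → c * a < c * b := by
    intro a b c hab
    rw [hlt] at *
    have h2 : c * b * (c * a)⁻¹ = c * (b * a⁻¹) * c⁻¹ := by group
    rw [h2]
    exact hposconj _ _ hab
  have : MulLeftMono (H ⧸ Ns) := ⟨fun c a b hab => by
    rcases (show a ≤ b from hab).lt_or_eq with h1 | h1
    · exact (hl a b c h1).le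
    · rw [h1]⟩
  have : MulRightMono (H ⧸ Ns) := ⟨fun c a b hab => by
    rcases (show a ≤ b from hab).lt_or_eq with h1 | h1
    · exact (hr a b c h1).le
    · rw [h1]⟩
  -- the largest generator
  let F : Finset (H ⧸ Ns) := insert 1 (hS.toFinset.image π ∪ hS.toFinset.image (fun s => (π s)⁻¹))
  have hFne : F.Nonempty := ⟨1, Finset.mem_insert_self _ _⟩
  set q := F.max' hFne with hq
  have hFq : ∀ s ∈ S, π s ≤ q ∧ (π s)⁻¹ ≤ q := by
    intro s hsS
    constructor
    · apply Finset.le_max'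
      refine Finset.mem_insert_of_mem (Finset.mem_union_left _ ?_)
      exact Finset.mem_image_of_mem _ (hS.mem_toFinset.2 hsS)
    · apply Finset.le_max'
      refine Finset.mem_insert_of_mem (Finset.mem_union_right _ ?_)
      exact Finset.mem_image.2 ⟨s, hS.mem_toFinset.2 hsS, rfl⟩
  have h1q : 1 < q := by
    obtain ⟨s, hsS, hsN⟩ := hs
    obtain ⟨h1, h2⟩ := hFq s hsS
    have hne : π s ≠ 1 := fun hc => hsN ((hπ1 s).1 hc)
    rcases lt_or_gt_of_ne hne with h3 | h3
    · refine lt_of_lt_of_le ?_ h2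
      have := hr _ _ (π s)⁻¹ h3
      rwa [mul_inv_cancel, one_mul] at this
    · exact lt_of_lt_of_le h3 h1
  have hdom : Dom q := by
    intro a
    obtain ⟨x, rfl⟩ := hπs a
    have hx : x ∈ Subgroup.closure S := by rw [hcl]; trivial
    induction hx using Subgroup.closure_induction with
    | mem s hs' =>
      obtain ⟨h1, h2⟩ := hFq s hs'
      exact ⟨1, by simpa using h1, by simpa using h2⟩
    | one => exact ⟨0, by simp, by simp⟩
    | mul x y _ _ ihx ihy =>
      obtain ⟨n, h1, h2⟩ := ihx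
      obtain ⟨m, h3, h4⟩ := ihy
      refine ⟨n + m, ?_, ?_⟩
      · rw [map_mul, pow_add]
        exact mul_le_mul' h1 h3
      · rw [map_mul, mul_inv_rev, add_comm, pow_add]
        exact mul_le_mul' h4 h2
    | inv x _ ih =>
      obtain ⟨n, h1, h2⟩ := ih
      exact ⟨n, by rw [map_inv]; exact h2, by rw [map_inv, inv_inv]; exact h1⟩
  obtain ⟨φ, hφ, hφq⟩ := hol_hom h1q hdom
  have : Group.FG H := Group.fg_iff.2 ⟨S, hcl, hS⟩
  obtain ⟨y, hy⟩ := hπs q
  exact surj_of_real (fun x => φ (π x)) (fun x y => by rw [map_mul, hφ])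
    ⟨y, by rw [hy, hφq]; exact one_ne_zero⟩

/-- Right-orderable groups with a law are locally indicable. -/
theorem loc_ind {G : Type*} [Group G] (lt : G → G → Prop)
    (hirr : ∀ a, ¬ lt a a) (htr : ∀ a b c, lt a b → lt b c → lt a c)
    (htri : ∀ a b, lt a b ∨ a = b ∨ lt b a) (hmul : ∀ a b c, lt a b → lt (a * c) (b * c))
    (v : FreeGroup Bool) (hv : v ≠ 1) (hlaw : ∀ f : Bool → G, FreeGroup.lift f v = 1)
    (K : Subgroup G) (hK : K.FG) (hne : K ≠ ⊥) :
    ∃ ψ : K →* Multiplicative ℤ, Function.Surjective ψ := by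
  obtain ⟨E, hE⟩ := hK
  have hEK : ∀ g ∈ E, g ∈ K := fun g hg => hE ▸ Subgroup.subset_closure hg
  have : Countable K := by
    have h1 : K = (FreeGroup.lift (fun x : (E : Set G) => (x : G))).range := by
      rw [← hE]
      exact FreeGroup.closure_eq_range _
    rw [h1]
    have : Countable (FreeGroup (E : Set G)) := inferInstance
    exact (MonoidHom.rangeRestrict_surjective _).countable
  let S : Set K := ((↑) : K → G) ⁻¹' (E : Set G)
  have hS : S.Finite := E.finite_toSet.preimage Subtype.val_injective.injOn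
  have hcl : Subgroup.closure S = ⊤ := by
    subst hE
    exact Subgroup.closure_closure_coe_preimage (k := (E : Set G))
  obtain ⟨g0, hg0⟩ : ∃ g : K, g ≠ 1 := by
    by_contra hc
    push Not at hc
    apply hne
    rw [Subgroup.eq_bot_iff_forall]
    intro x hx
    exact congrArg Subtype.val (hc ⟨x, hx⟩)
  obtain ⟨N, P, hNP, s, hs, hsN⟩ := theoremA (H := K) (fun a b => lt a b)
    (fun a => hirr a) (fun a b c => htr a b c)
    (fun a b => by
      rcases htri a b with h | h | h
      · exact Or.inl h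
      · exact Or.inr (Or.inl (Subtype.ext h))
      · exact Or.inr (Or.inr h))
    (fun a b c => hmul a b c) v hv
    (fun f => by
      have h1 : K.subtype.comp (FreeGroup.lift f) = FreeGroup.lift (fun c => (f c : G)) := by
        apply FreeGroup.ext_hom
        intro c
        simp only [MonoidHom.comp_apply, FreeGroup.lift_apply_of]
        rfl
      have h2 := DFunLike.congr_fun h1 v
      rw [hlaw, MonoidHom.comp_apply] at h2
      exact Subtype.ext h2)
    ⟨g0, hg0⟩ S hS hcl
  exact surj_of_biQuot hNP S hS hcl ⟨s, hs, hsN⟩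

end Pool.Agent.Lib.MP_bb0160_al
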