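import Mathlib
import Pool.Agent.Lib.MP_bb0160_al.H54Main

set_option autoImplicit false
set_option linter.unusedSectionVars false

/-!
Additions to `H54Main`: the Conrad order satisfies the condition of the problem with `m = 2`, and
every nontrivial finitely generated subgroup has a surjection onto the integers.
-/

namespace Pool.Agent.Lib.MP_bb0160_al

open Set

/-- Finite approximation of a Conrad cone, with both forms of the Conrad condition. -/
theorem finite_cone2 {G : Type*} [Group G] (lt : G → G → Prop)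
    (hirr : ∀ a, ¬ lt a a) (htr : ∀ a b c, lt a b → lt b c → lt a c)
    (htri : ∀ a b, lt a b ∨ a = b ∨ lt b a) (hmul : ∀ a b c, lt a b → lt (a * c) (b * c))
    (v : FreeGroup Bool) (hv : v ≠ 1) (hlaw : ∀ f : Bool → G, FreeGroup.lift f v = 1) :
    ∀ (n : ℕ) (E : Finset G), E.card ≤ n → ∃ T : Set G, (1 : G) ∉ T ∧
      (∀ g h, g ∈ T → h ∈ T → g * h ∈ T) ∧
      (∀ f g, f ∈ T → g ∈ T → f * (f * g * f⁻¹) ∈ T) ∧
      (∀ f u, f ∈ T → u ∈ T → f * (u * (f * u * f⁻¹) * u⁻¹) ∈ T) ∧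
      ∀ g ∈ E, g ≠ 1 → g ∈ T ∨ g⁻¹ ∈ T := by
  classical
  intro n
  induction n with
  | zero =>
    intro E hE
    have : E = ∅ := Finset.card_eq_zero.mp (Nat.le_zero.mp hE)
    subst this
    exact ⟨∅, by simp, by simp, by simp, by simp, by simp⟩
  | succ n ih =>
    intro E hE
    by_cases hE1 : ∃ g ∈ E, g ≠ 1
    · obtain ⟨N, P, hdisj, hone, htot, hPP, hNN, hNi, hPN, hNP, hcP, hcN, s, hs, hsN⟩ :=
        theoremA_sub lt hirr htr htri hmul v hv hlaw E hE1
      obtain ⟨T', hT1, hT2, hT3, hT5, hT4⟩ := ih (E.filter (fun g => g ∈ N)) (by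
        have hlt : (E.filter (fun g => g ∈ N)).card < E.card := by
          apply Finset.card_lt_card
          rw [Finset.filter_ssubset]
          exact ⟨s, hs, hsN⟩
        omega)
      refine ⟨P ∪ (T' ∩ N), ?_, ?_, ?_, ?_, ?_⟩
      · rintro (h | h)
        · exact hdisj 1 hone h
        · exact hT1 h.1
      · rintro g h (hg | ⟨hg, hg'⟩) (hh | ⟨hh, hh'⟩)
        · exact Or.inl (hPP _ _ hg hh)
        · exact Or.inl (hPN _ _ hg hh')
        · exact Or.inl (hNP _ _ hg' hh)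
        · exact Or.inr ⟨hT2 _ _ hg hh, hNN _ _ hg' hh'⟩
      · intro f g hf hg
        rcases hf with hf | ⟨hf, hf'⟩ <;> rcases hg with hg | ⟨hg, hg'⟩
        · exact Or.inl (hPP _ _ hf (hcP _ _ (Or.inr hf) hg))
        · exact Or.inl (hPN _ _ hf (hcN _ _ (Or.inr hf) hg'))
        · exact Or.inl (hNP _ _ hf' (hcP _ _ (Or.inl hf') hg))
        · exact Or.inr ⟨hT3 _ _ hf hg, hNN _ _ hf' (hcN _ _ (Or.inl hf') hg')⟩
      · intro f g hf hg
        rcases hf with hf | ⟨hf, hf'⟩ <;> rcases hg with hg | ⟨hg, hg'⟩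
        · exact Or.inl (hPP _ _ hf (hcP _ _ (Or.inr hg) (hcP _ _ (Or.inr hf) hg)))
        · exact Or.inl (hPN _ _ hf (hcN _ _ (Or.inl hg') (hcN _ _ (Or.inr hf) hg')))
        · exact Or.inl (hNP _ _ hf' (hcP _ _ (Or.inr hg) (hcP _ _ (Or.inl hf') hg)))
        · exact Or.inr ⟨hT5 _ _ hf hg,
            hNN _ _ hf' (hcN _ _ (Or.inl hg') (hcN _ _ (Or.inl hf') hg'))⟩
      · intro g hg hg1
        rcases htot g hg with h | h | h
        · rcases hT4 g (Finset.mem_filter.mpr ⟨hg, h⟩) hg1 with h' | h'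
          · exact Or.inl (Or.inr ⟨h', h⟩)
          · exact Or.inr (Or.inr ⟨h', hNi _ h⟩)
        · exact Or.inl (Or.inl h)
        · exact Or.inr (Or.inl h)
    · push Not at hE1
      exact ⟨∅, by simp, by simp, by simp, by simp, fun g hg hg1 => absurd (hE1 g hg) hg1⟩

/-- Every right-orderable group with a law has a right order which is Conrad, with `m = 2`, in both
usual forms of the condition. -/
theorem conrad_of_law2 {G : Type*} [Group G] (lt : G → G → Prop)
    (hirr : ∀ a, ¬ lt a a) (htr : ∀ a b c, lt a b → lt b c → lt a c)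
    (htri : ∀ a b, lt a b ∨ a = b ∨ lt b a) (hmul : ∀ a b c, lt a b → lt (a * c) (b * c))
    (v : FreeGroup Bool) (hv : v ≠ 1) (hlaw : ∀ f : Bool → G, FreeGroup.lift f v = 1) :
    ∃ lt : G → G → Prop,
        (∀ a, ¬ lt a a) ∧
        (∀ a b c, lt a b → lt b c → lt a c) ∧
        (∀ a b, lt a b ∨ a = b ∨ lt b a) ∧
        (∀ a b c, lt a b → lt (a * c) (b * c)) ∧
        (∀ f g, lt 1 f → lt f g → lt g (f * g ^ 2 * f⁻¹)) ∧
        (∀ f g, lt 1 f → lt 1 g → lt f (f ^ 2 * g)) := by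
  classical
  have hfin := fun E : Finset G =>
    finite_cone2 lt hirr htr htri hmul v hv hlaw E.card E le_rfl
  choose T hT1 hT2 hT3 hT5 hT4 using hfin
  obtain ⟨U, hU⟩ := Ultrafilter.exists_le (Filter.atTop : Filter (Finset G))
  let P : Set G := {g | ∀ᶠ E in (U : Filter (Finset G)), g ∈ T E}
  have hP1 : (1 : G) ∉ P := by
    intro h
    obtain ⟨E, hE⟩ := (show ∀ᶠ E in (U : Filter (Finset G)), (1 : G) ∈ T E from h).exists
    exact hT1 E hE
  have hP2 : ∀ g h, g ∈ P → h ∈ P → g * h ∈ P := by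
    intro g h hg hh
    filter_upwards [hg, hh] with E h1 h2
    exact hT2 E g h h1 h2
  have hP3 : ∀ f g, f ∈ P → g ∈ P → f * (f * g * f⁻¹) ∈ P := by
    intro g h hg hh
    filter_upwards [hg, hh] with E h1 h2
    exact hT3 E g h h1 h2
  have hP5 : ∀ f u, f ∈ P → u ∈ P → f * (u * (f * u * f⁻¹) * u⁻¹) ∈ P := by
    intro g h hg hh
    filter_upwards [hg, hh] with E h1 h2
    exact hT5 E g h h1 h2
  have hP4 : ∀ g, g ≠ 1 → g ∈ P ∨ g⁻¹ ∈ P := by
    intro g hg
    have h1 : ∀ᶠ E in (U : Filter (Finset G)), g ∈ T E ∨ g⁻¹ ∈ T E := by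
      have h2 : ∀ᶠ E in (Filter.atTop : Filter (Finset G)), {g} ⊆ E :=
        Filter.eventually_ge_atTop ({g} : Finset G)
      filter_upwards [hU h2] with E hE
      exact hT4 E g (hE (Finset.mem_singleton_self g)) hg
    exact Ultrafilter.eventually_or.mp h1
  refine ⟨fun a b => b * a⁻¹ ∈ P, ?_, ?_, ?_, ?_, ?_, ?_⟩
  · intro a
    change ¬ (a * a⁻¹ ∈ P)
    rw [mul_inv_cancel]
    exact hP1
  · intro a b c hab hbc
    have := hP2 _ _ hbc hab
    have h2 : c * b⁻¹ * (b * a⁻¹) = c * a⁻¹ := by group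
    rw [h2] at this
    exact this
  · intro a b
    by_cases hab : b * a⁻¹ = 1
    · exact Or.inr (Or.inl (mul_inv_eq_one.mp hab).symm)
    · rcases hP4 _ hab with h | h
      · exact Or.inl h
      · right; right
        have h2 : (b * a⁻¹)⁻¹ = a * b⁻¹ := by group
        rw [h2] at h
        exact h
  · intro a b c hab
    have h2 : b * c * (a * c)⁻¹ = b * a⁻¹ := by group
    change b * c * (a * c)⁻¹ ∈ P
    rw [h2]
    exact hab
  · intro f g hf hg
    have hf' : f ∈ P := by simpa using hf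
    have h := hP5 f (g * f⁻¹) hf' hg
    have h2 : f * (g * f⁻¹ * (f * (g * f⁻¹) * f⁻¹) * (g * f⁻¹)⁻¹) =
        f * g ^ 2 * f⁻¹ * g⁻¹ := by rw [pow_two]; group
    rw [h2] at h
    exact h
  · intro f g hf hg
    have hf' : f ∈ P := by simpa using hf
    have hg' : g ∈ P := by simpa using hg
    have h := hP3 f g hf' hg'
    have h2 : f * (f * g * f⁻¹) = f ^ 2 * g * f⁻¹ := by rw [pow_two]; group
    rw [h2] at h
    exact h

end Pool.Agent.Lib.MP_bb0160_al
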